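import Pool.Agent.Lib.MP_a57f33_nt.PN.P.mov
import Pool.Agent.Lib.MP_a57f33_nt.PN.P.clie

/-!
# Pentagon project (MP_a57f33_nt), doubling relations: combinatorics

`dbl g v` : the sum of `g` over the words obtained from `v` by doubling one letter.
-/

set_option autoImplicit false

namespace Pent

open Pool.Agent.MP_a57f33_nt
open Pool.Agent.MP_a57f33_nt.Cyc (shuffle sh sh_nil_left sh_nil_right sh_cons_cons)

/-- the sum of `g` over the words obtained from `v` by doubling one letter -/
def dbl {α : Type} : (List α → ℚ) → List α → ℚ
  | _, [] => 0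
  | g, x :: r => g (x :: x :: r) + dbl (fun t => g (x :: t)) r

/-- the sum of `F A x r` over all decompositions `v = A ++ x :: r` -/
def D_sum {α : Type} : (List α → α → List α → ℚ) → List α → ℚ
  | _, [] => 0
  | F, x :: r => F [] x r + D_sum (fun A => F (x :: A)) r

section

variable {α : Type}

theorem D_sum_snoc (v : List α) (c : α) : ∀ F : List α → α → List α → ℚ,
    D_sum F (v ++ [c]) = F v c [] + D_sum (fun A x r => F A x (r ++ [c])) v := by
  induction v with
  | nil => intro F; simp [D_sum]
  | cons y v ih =>
    intro F
    simp only [List.cons_append, D_sum]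
    rw [ih]
    ring

theorem D_sum_add (v : List α) : ∀ F G : List α → α → List α → ℚ,
    D_sum (fun A x r => F A x r + G A x r) v = D_sum F v + D_sum G v := by
  induction v with
  | nil => intro F G; simp [D_sum]
  | cons y v ih =>
    intro F G
    simp only [D_sum]
    rw [ih]
    ring

theorem D_sum_mul (v : List α) : ∀ (q : ℚ) (F : List α → α → List α → ℚ),
    D_sum (fun A x r => q * F A x r) v = q * D_sum F v := by
  induction v with
  | nil => intro q F; simp [D_sum]
  | cons y v ih =>
    intro q F
    simp only [D_sum]
    rw [ih]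
    ring

theorem D_sum_zero (v : List α) : D_sum (fun (_ : List α) (_ : α) (_ : List α) => (0 : ℚ)) v = 0 := by
  have := D_sum_mul v 0 (fun _ _ _ => (0 : ℚ))
  simpa using this

theorem D_sum_congr (v : List α) : ∀ {F G : List α → α → List α → ℚ},
    (∀ A x r, v = A ++ x :: r → F A x r = G A x r) → D_sum F v = D_sum G v := by
  induction v with
  | nil => intro F G _; rfl
  | cons y v ih =>
    intro F G h
    simp only [D_sum]
    rw [h [] y v rfl, ih (fun A x r e => h (y :: A) x r (by rw [e]; rfl))]

theorem D_dbl (v : List α) : ∀ g : List α → ℚ,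
    dbl g v = D_sum (fun A x r => g (A ++ x :: x :: r)) v := by
  induction v with
  | nil => intro g; rfl
  | cons y v ih =>
    intro g
    simp only [dbl, D_sum, List.nil_append]
    rw [ih]
    rfl

theorem dbl_add (v : List α) : ∀ f g : List α → ℚ,
    dbl (fun t => f t + g t) v = dbl f v + dbl g v := by
  intro f g
  rw [D_dbl, D_dbl, D_dbl, ← D_sum_add]

theorem dbl_mul (v : List α) : ∀ (q : ℚ) (f : List α → ℚ),
    dbl (fun t => q * f t) v = q * dbl f v := by
  intro q f
  rw [D_dbl, D_dbl, ← D_sum_mul]

theorem dbl_zero (v : List α) : dbl (fun _ : List α => (0 : ℚ)) v = 0 := by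
  rw [D_dbl, D_sum_zero]

theorem dbl_congr (v : List α) {f g : List α → ℚ}
    (h : ∀ A x r, v = A ++ x :: r → f (A ++ x :: x :: r) = g (A ++ x :: x :: r)) :
    dbl f v = dbl g v := by
  rw [D_dbl, D_dbl]
  exact D_sum_congr v h

/-- the coefficient functional of the doubling rule -/
def D_K (g : List α → ℚ) (v : List α) : ℚ :=
  D_sum (fun A x r => (-1) ^ r.length * sh A (r.reverse ++ [x]) (fun s => g (s ++ [x]))) v

theorem D_K_lie {g : List α → ℚ}
    (hg : ∀ u v : List α, u ≠ [] → v ≠ [] → ((shuffle u v).map g).sum = 0) (v : List α) :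
    D_K g v = - dbl g v := by
  have h1 := D_sum_mul v (-1) (fun A x r => g (A ++ x :: x :: r))
  rw [D_dbl, neg_eq_neg_one_mul, ← h1, D_K]
  refine D_sum_congr v fun A x r _ => ?_
  have h2 := mov_lie g hg (x :: r) A x
  rw [List.reverse_cons, List.length_cons, pow_succ] at h2
  rw [h2]
  ring

variable [DecidableEq α]

/-- `h` at the word without its first letter, if this is `i` -/
def D_cn (i : α) (h : List α → ℚ) : List α → ℚ
  | [] => 0
  | j :: w => if j = i then h w else 0

omit [DecidableEq α] in
theorem D_sh_zero : ∀ (u v : List α), sh u v (fun _ => (0 : ℚ)) = 0 := by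
  intro u v
  unfold sh
  induction shuffle u v with
  | nil => rfl
  | cons a l ih => rw [List.map_cons, List.sum_cons, ih, add_zero]

omit [DecidableEq α] in
theorem D_sh_ite (p : Prop) [Decidable p] (u v : List α) (f : List α → ℚ) :
    sh u v (fun s => if p then f s else 0) = if p then sh u v f else 0 := by
  split_ifs
  · rfl
  · exact D_sh_zero u v

/-- first part of the recursion -/
def D_p1 (i : α) (h : List α → ℚ) : List α → α → List α → ℚ
  | [], _, _ => 0
  | a :: A, x, r => if a = i then
      (-1) ^ r.length * sh A (r.reverse ++ [x]) (fun s => h (s ++ [x])) else 0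

/-- second part of the recursion; the last argument is the reversed word `r` -/
def D_q2 (i : α) (h : List α → ℚ) (A : List α) (x : α) : List α → ℚ
  | [] => if x = i then h (A ++ [x]) else 0
  | c :: r => if c = i then
      -((-1) ^ r.length * sh A (r ++ [x]) (fun s => h (s ++ [x]))) else 0

theorem D_cn_rec (i : α) (h : List α → ℚ) (A : List α) (x : α) (r : List α) :
    (-1) ^ r.length * sh A (r.reverse ++ [x]) (fun s => D_cn i h (s ++ [x])) =
      D_p1 i h A x r + D_q2 i h A x r.reverse := by
  have hr : r.length = r.reverse.length := (List.length_reverse).symm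
  have e1 : D_p1 i h A x r = match A with
      | [] => 0
      | a :: A => if a = i then
        (-1) ^ r.reverse.length * sh A (r.reverse ++ [x]) (fun s => h (s ++ [x])) else 0 := by
    rw [← hr]
    cases A <;> rfl
  rw [e1, hr]
  generalize r.reverse = R
  cases A with
  | nil =>
    cases R with
    | nil => simp [sh_nil_left, D_cn, D_q2]
    | cons c R =>
      simp only [sh_nil_left, D_q2, List.cons_append, D_cn, List.length_cons, pow_succ]
      split_ifs <;> ring
  | cons a A =>
    cases R with
    | nil =>
      simp only [List.nil_append, sh_cons_cons, sh_nil_right, D_q2, List.cons_append, D_cn,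
        List.length_nil, pow_zero, one_mul, D_sh_ite]
    | cons c R =>
      simp only [sh_cons_cons, D_q2, List.cons_append, D_cn, D_sh_ite, List.length_cons, pow_succ]
      split_ifs <;> ring

theorem D_K_cn_nil (i : α) (h : List α → ℚ) : D_K (D_cn i h) [] = 0 := rfl

theorem D_K_split (i : α) (h : List α → ℚ) (v : List α) :
    D_K (D_cn i h) v = D_sum (D_p1 i h) v + D_sum (fun A x r => D_q2 i h A x r.reverse) v := by
  rw [← D_sum_add]
  exact D_sum_congr v fun A x r _ => D_cn_rec i h A x r

theorem D_K_part1 (i : α) (h : List α → ℚ) (y : α) (v : List α) :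
    D_sum (D_p1 i h) (y :: v) = if y = i then D_K h v else 0 := by
  have e0 : D_p1 i h [] y v = 0 := rfl
  rw [D_sum, e0, zero_add]
  by_cases hy : y = i
  · rw [if_pos hy, D_K]
    refine D_sum_congr v fun A x r _ => ?_
    rw [D_p1, if_pos hy]
  · rw [if_neg hy, ← D_sum_zero v]
    refine D_sum_congr v fun A x r _ => ?_
    rw [D_p1, if_neg hy]

theorem D_K_part2 (i : α) (h : List α → ℚ) (c : α) (v : List α) :
    D_sum (fun A x r => D_q2 i h A x r.reverse) (v ++ [c]) =
      if c = i then h (v ++ [i]) - D_K h v else 0 := by
  rw [D_sum_snoc]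
  simp only [List.reverse_append, List.reverse_cons, List.reverse_nil, List.nil_append,
    List.cons_append, D_q2]
  by_cases hc : c = i
  · subst hc
    simp only [if_true]
    have e := D_sum_mul v (-1) (fun A x r =>
      (-1) ^ r.length * sh A (r.reverse ++ [x]) (fun s => h (s ++ [x])))
    have e2 : D_sum (fun A x r => -((-1) ^ r.reverse.length *
        sh A (r.reverse ++ [x]) fun s => h (s ++ [x]))) v = - D_K h v := by
      rw [D_K, neg_eq_neg_one_mul (D_sum _ v), ← e]
      refine D_sum_congr v fun A x r _ => ?_
      rw [List.length_reverse]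
      ring
    rw [e2]
    ring
  · simp only [if_neg hc, zero_add]
    exact D_sum_zero v

end

end Pent
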