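import Pool.Agent.Lib.MP_a57f33_nt.PN.D.Main
import Pool.Agent.Lib.MP_a57f33_nt.PN.K.Main

/-!
# Pentagon project (MP_a57f33_nt): the lemma K_m implies the pentagon equation for `dm₀`

`KD m R P` : the relations satisfied by the lowest depth parts (depth `m` = number of letters
`b = 1`, `c = 2`) of `R`, `P`; `S_K m` : they have only the zero solution. `pentagon_of_K`:
if `S_K m` holds for all `m` then the pentagon equation holds for all elements of `dm₀`.
`trunc_of_K`: if `S_K m` holds for `m ≤ n0` then it holds modulo depth `n0 + 1`.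
-/

set_option autoImplicit false

namespace Pent

open Pool.Agent.MP_a57f33_nt
open Pool.Agent.MP_a57f33_nt.Cyc (shuffle sh)

universe v

noncomputable section

/-- the sum of `g` over the words obtained from `v` by doubling one letter `b` or `c` -/
def dblD : (List (Fin 3) → ℚ) → List (Fin 3) → ℚ
  | _, [] => 0
  | g, x :: r => (if x = 0 then 0 else g (x :: x :: r)) + dblD (fun t => g (x :: t)) r

/-- `g` kills all proper shuffles -/
def D_Lf (g : List (Fin 3) → ℚ) : Prop := ∀ u v : List (Fin 3), u ≠ [] → v ≠ [] →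
  ((shuffle u v).map g).sum = 0

/-- The relations between the parts of depth `m` of `R` and `P` (letters `a = 0`, `b = 1`,
`c = 2`), if there are no parts of smaller depth. -/
structure KD (m : ℕ) (R P : List (Fin 3) → ℚ) : Prop where
  lieR : D_Lf R
  lieP : D_Lf P
  depR : ∀ w, nbc w ≠ m → R w = 0
  depP : ∀ w, nbc w ≠ m → P w = 0
  R0 : ∀ w, 0 ∉ w → R w = 0
  P0 : ∀ w, 0 ∉ w → P w = 0
  R1 : ∀ w, w.count 1 ≤ 2 → R w = 0
  R2 : ∀ w, w.count 2 ≤ 1 → R w = 0
  P1 : ∀ w, w.count 1 ≤ 1 → P w = 0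
  P2 : ∀ w, w.count 2 ≤ 1 → P w = 0
  /-- (1) -/
  k1 : ∀ w, R (w ++ [2]) = R (2 :: w)
  /-- (2) -/
  k2 : ∀ w, P (w ++ [1]) = P (1 :: w)
  /-- (3) -/
  k3 : ∀ w, P (w ++ [2]) = - R (1 :: w)
  /-- (4) = (34) -/
  k4 : ∀ w, dblD R w + R (w ++ [2]) = 0
  /-- (5) = (12) -/
  k5 : ∀ w, dblD P w + P (w ++ [1]) = 0

/-- **Lemma K_m** -/
def S_K (m : ℕ) : Prop := ∀ R P : List (Fin 3) → ℚ, KD m R P → ∀ w, R w = 0 ∧ P w = 0

/-- the part of depth `m` -/
def D_part (m : ℕ) (g : List (Fin 3) → ℚ) (w : List (Fin 3)) : ℚ := if nbc w = m then g w else 0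

theorem D_nbc_perm {u v : List (Fin 3)} (h : u.Perm v) : nbc u = nbc v := by
  unfold nbc
  exact (h.filter _).length_eq

theorem D_nbc_append (u v : List (Fin 3)) : nbc (u ++ v) = nbc u + nbc v := by
  simp [nbc]

theorem D_nbc_cons (x : Fin 3) (v : List (Fin 3)) :
    nbc (x :: v) = (if x = 0 then 0 else 1) + nbc v := by
  unfold nbc
  rw [List.filter_cons]
  by_cases h : x = 0
  · simp [h]
  · simp [h]; omega

theorem D_part_lie {g : List (Fin 3) → ℚ} (hg : D_Lf g) (m : ℕ) : D_Lf (D_part m g) := by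
  intro u v hu hv
  have h : ∀ t ∈ shuffle u v, D_part m g t = if nbc (u ++ v) = m then g t else 0 := by
    intro t ht
    rw [D_part, D_nbc_perm (SP_perm u v t ht)]
  rw [List.map_congr_left h]
  split_ifs
  · exact hg u v hu hv
  · simp

/-- doubling and the part of depth `m`, if `g` has no part of smaller depth -/
theorem D_part_dbl {m : ℕ} {g : List (Fin 3) → ℚ} (hg : ∀ w, nbc w < m → g w = 0) :
    ∀ (v p : List (Fin 3)), dblD (fun t => D_part m g (p ++ t)) v =
      if nbc p + nbc v + 1 = m then dbl (fun t => g (p ++ t)) v else 0 := by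
  intro v
  induction v with
  | nil => intro p; simp [dblD, dbl]
  | cons x r ih =>
    intro p
    simp only [dblD, dbl]
    have h1 := ih (p ++ [x])
    simp only [List.append_assoc, List.cons_append, List.nil_append] at h1
    rw [h1]
    have e1 : nbc (p ++ [x]) + nbc r = nbc p + nbc (x :: r) := by
      rw [D_nbc_append, add_assoc, ← D_nbc_append, List.singleton_append]
    rw [e1]
    by_cases hx : x = 0
    · rw [if_pos hx]
      by_cases h2 : nbc p + nbc (x :: r) + 1 = m
      · rw [if_pos h2, if_pos h2, hg (p ++ x :: x :: r)]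
        rw [D_nbc_append, D_nbc_cons, D_nbc_cons]
        rw [D_nbc_cons] at h2
        simp only [hx, if_true] at h2 ⊢
        omega
      · rw [if_neg h2, if_neg h2, add_zero]
    · rw [if_neg hx]
      have e2 : nbc (p ++ x :: x :: r) = nbc p + nbc (x :: r) + 1 := by
        rw [D_nbc_append, D_nbc_cons, D_nbc_cons, if_neg hx]
        omega
      rw [D_part, e2]
      by_cases h2 : nbc p + nbc (x :: r) + 1 = m
      · rw [if_pos h2, if_pos h2, if_pos h2]
      · rw [if_neg h2, if_neg h2, if_neg h2, add_zero]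

theorem D_part_zero {m : ℕ} {g : List (Fin 3) → ℚ} {w : List (Fin 3)} (h : g w = 0) :
    D_part m g w = 0 := by
  rw [D_part, h, ite_self]

/-- reversal -/
theorem D_Lf_rev {g : List (Fin 3) → ℚ} (hg : D_Lf g) {w : List (Fin 3)} (hw : w ≠ []) :
    g w.reverse = (-1) ^ (w.length + 1) * g w :=
  (p_mov (Fin 3) g hg).2.2 w hw

theorem dblD_eq (v : List (Fin 3)) : ∀ g : List (Fin 3) → ℚ,
    dblD g v = D_sum (fun A x r => if x = 0 then 0 else g (A ++ x :: x :: r)) v := by
  induction v with
  | nil => intro g; rfl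
  | cons y v ih =>
    intro g
    simp only [dblD, D_sum, List.nil_append]
    rw [ih]
    rfl

theorem D_sum_rev {α : Type} (v : List α) : ∀ F : List α → α → List α → ℚ,
    D_sum F v.reverse = D_sum (fun A x r => F r.reverse x A.reverse) v := by
  induction v with
  | nil => intro F; rfl
  | cons y v ih =>
    intro F
    rw [List.reverse_cons, D_sum_snoc, ih]
    simp only [D_sum, List.reverse_nil, List.reverse_cons]

/-- (2) follows from (5) -/
theorem D_k2_of_k5 {P : List (Fin 3) → ℚ} (hP : D_Lf P)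
    (h5 : ∀ w, dblD P w + P (w ++ [1]) = 0) (w : List (Fin 3)) : P (w ++ [1]) = P (1 :: w) := by
  have h1 := h5 w.reverse
  have h2 := h5 w
  have h3 : dblD P w.reverse = (-1) ^ w.length * dblD P w := by
    rw [dblD_eq, dblD_eq, D_sum_rev, ← D_sum_mul]
    refine D_sum_congr w fun A x r hw => ?_
    split_ifs
    · ring
    · have h4 := D_Lf_rev hP (w := A ++ x :: x :: r) (by simp)
      have h5 : (A ++ x :: x :: r).reverse = r.reverse ++ x :: x :: A.reverse := by simp
      rw [h5] at h4
      rw [h4, hw]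
      simp only [List.length_append, List.length_cons, pow_add, pow_succ, pow_zero]
      ring
  have h4 : P (w.reverse ++ [1]) = (-1) ^ w.length * P (1 :: w) := by
    have := D_Lf_rev hP (w := 1 :: w) (by simp)
    rw [List.reverse_cons] at this
    rw [this, List.length_cons, pow_succ, pow_succ]
    ring
  rw [h3, h4, ← mul_add] at h1
  have h6 : ((-1 : ℚ)) ^ w.length ≠ 0 := by simp
  have h7 := (mul_eq_zero.1 h1).resolve_left h6
  linarith

/-- the lowest depth parts satisfy the relations of Lemma K_m -/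
theorem D_KD {φ : QX} (hφ : Good φ)
    (hR : ∀ w : List (Fin 3), (w.count 1 ≤ 1 ∨ w.count 2 ≤ 1) → coeff (Rw φ wR) w = 0)
    (m : ℕ) (h1 : ∀ w, nbc w < m → coeff (Rw φ wR) w = 0)
    (h2 : ∀ w, nbc w < m → coeff (Rw φ wP) w = 0) :
    KD m (D_part m (coeff (Rw φ wR))) (D_part m (coeff (Rw φ wP))) := by
  have hL : ∀ w, D_L (Rw φ w) := fun w => (p_clie (Fin 3) _ (p_lieR φ hφ w).1).2
  have hforg := p_forg p_univ p_tau φ hφ
  have hD := p_dbl hφ hR
  have k5 : ∀ w, dblD (D_part m (coeff (Rw φ wP))) w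
      + D_part m (coeff (Rw φ wP)) (w ++ [1]) = 0 := by
    intro w
    have e := D_part_dbl h2 w []
    have e1 : nbc (w ++ [1]) = nbc [] + nbc w + 1 := by
      rw [D_nbc_append]
      simp [nbc]
    simp only [List.nil_append] at e
    rw [e, D_part, e1]
    by_cases h : nbc [] + nbc w + 1 = m
    · rw [if_pos h, if_pos h]
      have h3 := hD.r12 w
      have h4 : (if 0 ∈ w then coeff (Rw φ wP) (0 :: w) else 0) = 0 := by
        split_ifs
        · apply h2
          rw [D_nbc_cons]
          simp only [nbc, List.filter_nil, List.length_nil] at h ⊢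
          simp only [if_true]
          omega
        · rfl
      rw [h4, add_zero] at h3
      exact h3
    · rw [if_neg h, if_neg h, add_zero]
  refine ⟨D_part_lie (hL wR) m, D_part_lie (hL wP) m, ?_, ?_, ?_, ?_, ?_, ?_, ?_, ?_, ?_,
    D_k2_of_k5 (D_part_lie (hL wP) m) k5, ?_, ?_, k5⟩
  · intro w hw; rw [D_part, if_neg hw]
  · intro w hw; rw [D_part, if_neg hw]
  · intro w hw; exact D_part_zero (hforg wR wR_inj 0 w hw)
  · intro w hw; exact D_part_zero (hforg wP wP_inj 0 w hw)
  · intro w hw; exact D_part_zero (hD.R1 w hw)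
  · intro w hw; exact D_part_zero (hD.R2 w hw)
  · intro w hw; exact D_part_zero (hD.P1 w hw)
  · intro w hw; exact D_part_zero (hD.P2 w hw)
  · intro w
    have e1 : nbc (w ++ [2]) = nbc (2 :: w) := by
      rw [D_nbc_append, D_nbc_cons]
      simp [nbc, add_comm]
    rw [D_part, D_part, e1, hD.abc.a]
  · intro w
    have e1 : nbc (w ++ [2]) = nbc (1 :: w) := by
      rw [D_nbc_append, D_nbc_cons]
      simp [nbc, add_comm]
    rw [D_part, D_part, e1]
    by_cases h : nbc (1 :: w) = m
    · rw [if_pos h, if_pos h, hD.abc.c]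
      have h4 : (if 0 ∈ w then coeff (Rw φ wR) (0 :: w) else 0) = 0 := by
        split_ifs
        · apply h1
          rw [D_nbc_cons] at h ⊢
          simp only [if_true]
          rw [if_neg (by decide)] at h
          omega
        · rfl
      rw [h4, add_zero]
    · rw [if_neg h, if_neg h, neg_zero]
  · intro w
    have e := D_part_dbl h1 w []
    have e1 : nbc (w ++ [2]) = nbc [] + nbc w + 1 := by
      rw [D_nbc_append]
      simp [nbc]
    simp only [List.nil_append] at e
    rw [e, D_part, e1]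
    by_cases h : nbc [] + nbc w + 1 = m
    · rw [if_pos h, if_pos h]
      exact hD.r34 w
    · rw [if_neg h, if_neg h, add_zero]

/-- Lemma K_m for `m ≤ n0`: `R` and `P` have no words of depth at most `n0` -/
theorem D_fil {φ : QX} (hφ : Good φ)
    (hR : ∀ w : List (Fin 3), (w.count 1 ≤ 1 ∨ w.count 2 ≤ 1) → coeff (Rw φ wR) w = 0)
    (n0 : ℕ) (hK : ∀ m, m ≤ n0 → S_K m) :
    Fil (n0 + 1) (Rw φ wR) ∧ Fil (n0 + 1) (Rw φ wP) := by
  have h : ∀ m, m ≤ n0 + 1 → (∀ w, nbc w < m → coeff (Rw φ wR) w = 0) ∧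
      (∀ w, nbc w < m → coeff (Rw φ wP) w = 0) := by
    intro m
    induction m with
    | zero => intro _; exact ⟨fun w hw => by omega, fun w hw => by omega⟩
    | succ m ih =>
      intro hm
      obtain ⟨i1, i2⟩ := ih (by omega)
      have h3 := hK m (by omega) _ _ (D_KD hφ hR m i1 i2)
      constructor
      · intro w hw
        by_cases h4 : nbc w < m
        · exact i1 w h4
        · have := (h3 w).1
          rwa [D_part, if_pos (by omega)] at this
      · intro w hw
        by_cases h4 : nbc w < m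
        · exact i2 w h4
        · have := (h3 w).2
          rwa [D_part, if_pos (by omega)] at this
  exact h (n0 + 1) le_rfl

theorem D_filQ {φ : QX} (hφ : Good φ)
    (hR : ∀ w : List (Fin 3), (w.count 1 ≤ 1 ∨ w.count 2 ≤ 1) → coeff (Rw φ wR) w = 0)
    (n : ℕ) (h : Fil n (Rw φ wR)) : Fil n (Rw φ wQ) := by
  have hL := (p_clie (Fin 3) _ (p_lieR φ hφ wQ).1).2
  have hD := p_dbl hφ hR
  intro w hw
  by_cases hc : 2 ∈ w
  · obtain ⟨A, B, rfl⟩ := List.append_of_mem hc
    rw [mov_lie _ hL B A 2, D_sh_van, mul_zero]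
    intro t ht
    have h1 : nbc t = nbc A + nbc B := by
      rw [D_nbc_perm ht, D_nbc_append, D_nbc_perm (List.reverse_perm B)]
    rw [D_nbc_append, D_nbc_cons, if_neg (by decide)] at hw
    rw [hD.abc.b, h, h, sub_zero]
    · rw [D_nbc_cons, if_neg (by decide)]; omega
    · rw [D_nbc_cons, if_neg (by decide)]; omega
  · exact p_forg p_univ p_tau φ hφ wQ wQ_inj 2 w hc

/-- **Lemma K_m for all `m` implies the pentagon equation for all elements of `dm₀`.** -/
theorem pentagon_of_K (hK : ∀ m, S_K m) : S_main.{v} := by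
  intro ψ hψ A _ _ t ht
  have hφ : Good (sgn ψ) := sgn_good hψ
  have hR := p_few p_clie p_mov _ (p_lieR _ hφ wR).1 (s_F1 ψ hψ)
  have hR0 : Rw (sgn ψ) wR = 0 := by
    apply K_fil_zero
    intro d l hl
    exact (D_fil hφ hR d (fun m _ => hK m)).1 l (by omega)
  have h5 := p_univ.{v} (sgn ψ) hφ wR wR_inj A (fun p q => t (eS p) (eS q)) (braid_eS ht)
  simp only [eS_wR] at h5
  rw [h5, hR0, map_zero]

/-- **Lemma K_m for `m ≤ n0` implies the pentagon equation modulo depth `n0 + 1`.** -/
theorem trunc_of_K (n0 : ℕ) (hK : ∀ m, m ≤ n0 → S_K m) : S_trunc.{v} (n0 + 1) := by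
  intro ψ hψ A _ _ t ht j hj
  have hφ : Good (sgn ψ) := sgn_good hψ
  have hR := p_few p_clie p_mov _ (p_lieR _ hφ wR).1 (s_F1 ψ hψ)
  obtain ⟨f1, f2⟩ := D_fil hφ hR n0 hK
  have f3 := D_filQ hφ hR (n0 + 1) f1
  have hj' : j = 3 ∨ j = 2 ∨ j = 1 := by omega
  rcases hj' with rfl | rfl | rfl
  · exact T_of_fil hφ wR wR_inj eS eS_inj eS_wR rfl _ f1 t ht
  · exact T_of_fil hφ wQ wQ_inj eQ eQ_inj (by intro i; fin_cases i <;> rfl) rfl _ f3 t ht
  · exact T_of_fil hφ wP wP_inj eP eP_inj (by intro i; fin_cases i <;> rfl) rfl _ f2 t ht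

end

end Pent
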