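import Pool.Agent.Lib.MP_a57f33_nt.PN.D.Glue
import Pool.Agent.Lib.MP_a57f33_nt.PN.P.mV

/-!
# Pentagon project (MP_a57f33_nt): the graded coordinate changes

`D_pr m` : the part of depth `m` of an element of `T3`; `D_ch X f = (lift X f) 1`; if the
operators `Xg i` are homogeneous of degree `nbc [i]` and `X i - Xg i` has higher degree, then
`D_pr m (D_ch X f) = D_ch Xg (D_pr m f)` for `f` without parts of depth `< m`.
-/

set_option autoImplicit false

namespace Pent

open Pool.Agent.MP_a57f33_nt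
open Pool.Agent.MP_a57f33_nt.Cyc (shuffle)

noncomputable section

/-- the part of depth `m` -/
def D_pr (m : ℕ) : T3 →ₗ[ℚ] T3 :=
  (FreeAlgebra.basisFreeMonoid ℚ (Fin 3)).constr ℚ
    (fun w => if nbc w.toList = m then word w.toList else 0)

theorem D_pr_word (m : ℕ) (w : List (Fin 3)) :
    D_pr m (word w) = if nbc w = m then word w else 0 := by
  unfold D_pr
  rw [← basis_apply, Module.Basis.constr_basis, FreeMonoid.toList_ofList, basis_apply]

theorem D_pr_coeff (m : ℕ) (f : T3) (w : List (Fin 3)) :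
    coeff (D_pr m f) w = if nbc w = m then coeff f w else 0 := by
  have e : (coeffL w).comp (D_pr m) = (if nbc w = m then (1 : ℚ) else 0) • coeffL w := by
    apply linear_ext
    intro u
    simp only [LinearMap.comp_apply, LinearMap.smul_apply, coeffL_apply, D_pr_word, smul_eq_mul]
    by_cases h : nbc u = m
    · rw [if_pos h, coeff_word]
      by_cases h2 : u = w
      · subst h2; simp [h]
      · simp [h2]
    · rw [if_neg h, coeff_zero, coeff_word]
      by_cases h2 : u = w
      · subst h2; simp [h]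
      · simp [h2]
  have h := LinearMap.congr_fun e f
  simp only [LinearMap.comp_apply, LinearMap.smul_apply, coeffL_apply, smul_eq_mul] at h
  rw [h]
  split_ifs <;> simp

/-- the elements of depth `m` -/
def D_hom (m : ℕ) : Submodule ℚ T3 :=
  Submodule.span ℚ {x : T3 | ∃ w, nbc w = m ∧ word w = x}

theorem D_hom_word (w : List (Fin 3)) : word w ∈ D_hom (nbc w) :=
  Submodule.subset_span ⟨w, rfl, rfl⟩

theorem D_hom_iff (m : ℕ) (f : T3) : f ∈ D_hom m ↔ ∀ w, nbc w ≠ m → coeff f w = 0 := by
  constructor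
  · intro h w hw
    have hle : D_hom m ≤ LinearMap.ker (coeffL w) := by
      apply Submodule.span_le.mpr
      rintro x ⟨v, hv, rfl⟩
      rw [SetLike.mem_coe, LinearMap.mem_ker, coeffL_apply, coeff_word, if_neg]
      rintro rfl
      exact hw hv
    have := hle h
    rwa [LinearMap.mem_ker, coeffL_apply] at this
  · intro h
    exact mV_mem_span (fun w => nbc w = m) f (fun w hw => h w hw)

theorem D_hom_mul {j k : ℕ} {f g : T3} (hf : f ∈ D_hom j) (hg : g ∈ D_hom k) :
    f * g ∈ D_hom (j + k) := by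
  have h1 : D_hom j * D_hom k ≤ D_hom (j + k) := by
    unfold D_hom
    rw [Submodule.span_mul_span]
    apply Submodule.span_mono
    intro x hx
    rw [Set.mem_mul] at hx
    obtain ⟨a, ⟨u, hu, rfl⟩, b, ⟨v, hv, rfl⟩, rfl⟩ := hx
    refine ⟨u ++ v, ?_, word_append u v⟩
    rw [mV_nbc_append]
    omega
  exact h1 (Submodule.mul_mem_mul hf hg)

theorem D_hom_iota (i : Fin 3) : (FreeAlgebra.ι ℚ i : T3) ∈ D_hom (nbc [i]) := by
  have : (FreeAlgebra.ι ℚ i : T3) = word [i] := by simp
  rw [this]
  exact D_hom_word _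

theorem D_hom_F {m k : ℕ} (h : k ≤ m) : D_hom m ≤ mV_F k := by
  apply Submodule.span_mono
  rintro x ⟨w, hw, rfl⟩
  exact ⟨w, by omega, rfl⟩

theorem D_F_mono {m k : ℕ} (h : k ≤ m) : mV_F m ≤ mV_F k := by
  apply Submodule.span_mono
  rintro x ⟨w, hw, rfl⟩
  exact ⟨w, by omega, rfl⟩

theorem D_nbc_c (i : Fin 3) (u : List (Fin 3)) : nbc (i :: u) = nbc [i] + nbc u := by
  have := mV_nbc_append [i] u
  rwa [List.singleton_append] at this

/-- homogeneous derivations -/
theorem D_der_hom {e : ℕ} {u : Fin 3 → T3} (hu : ∀ i, u i ∈ D_hom (nbc [i] + e)) {j : ℕ} {f : T3}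
    (hf : f ∈ D_hom j) : der u f ∈ D_hom (j + e) := by
  have hw : ∀ w : List (Fin 3), der u (word w) ∈ D_hom (nbc w + e) := by
    intro w
    induction w with
    | nil => rw [word_nil, der_one]; exact Submodule.zero_mem _
    | cons i w ih =>
      rw [word_cons, der_mul, der_iota]
      apply Submodule.add_mem
      · have := D_hom_mul (hu i) (D_hom_word w)
        rwa [show nbc [i] + e + nbc w = nbc (i :: w) + e by rw [D_nbc_c i w]; omega] at this
      · have := D_hom_mul (D_hom_iota i) ih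
        rwa [show nbc [i] + (nbc w + e) = nbc (i :: w) + e by rw [D_nbc_c i w]; omega] at this
  have hle : D_hom j ≤ (D_hom (j + e)).comap (der u) := by
    apply Submodule.span_le.mpr
    rintro x ⟨v, hv, rfl⟩
    rw [SetLike.mem_coe, Submodule.mem_comap, ← hv]
    exact hw v
  exact hle hf

/-- derivations that raise the depth -/
theorem D_der_F {e : ℕ} {u : Fin 3 → T3} (hu : ∀ i, u i ∈ mV_F (nbc [i] + e)) {j : ℕ} {f : T3}
    (hf : f ∈ mV_F j) : der u f ∈ mV_F (j + e) := by
  have hw : ∀ w : List (Fin 3), der u (word w) ∈ mV_F (nbc w + e) := by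
    intro w
    induction w with
    | nil => rw [word_nil, der_one]; exact Submodule.zero_mem _
    | cons i w ih =>
      rw [word_cons, der_mul, der_iota]
      apply Submodule.add_mem
      · have := mV_mul _ _ _ _ (hu i) (mV_word_mem _ w le_rfl)
        rwa [show nbc [i] + e + nbc w = nbc (i :: w) + e by rw [D_nbc_c i w]; omega] at this
      · have := mV_mul _ _ _ _ (mV_iota i) ih
        rwa [show nbc [i] + (nbc w + e) = nbc (i :: w) + e by rw [D_nbc_c i w]; omega] at this
  have hle : mV_F j ≤ (mV_F (j + e)).comap (der u) := by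
    apply Submodule.span_le.mpr
    rintro x ⟨v, hv, rfl⟩
    rw [SetLike.mem_coe, Submodule.mem_comap]
    exact D_F_mono (by omega) (hw v)
  exact hle hf

/-- the evaluation `f ↦ f(X_0, X_1, X_2) · 1` -/
def D_ch (X : Fin 3 → Module.End ℚ T3) : T3 →ₗ[ℚ] T3 :=
  (LinearMap.applyₗ (1 : T3)).comp (FreeAlgebra.lift ℚ X).toLinearMap

theorem D_ch_apply (X : Fin 3 → Module.End ℚ T3) (f : T3) :
    D_ch X f = (FreeAlgebra.lift ℚ X f) 1 := rfl

theorem D_ch_nil (X : Fin 3 → Module.End ℚ T3) : D_ch X (word []) = 1 := by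
  have e : (FreeAlgebra.lift ℚ X) (1 : T3) = 1 := map_one _
  rw [D_ch_apply, word_nil, e]; rfl

theorem D_ch_cons (X : Fin 3 → Module.End ℚ T3) (i : Fin 3) (u : List (Fin 3)) :
    D_ch X (word (i :: u)) = X i (D_ch X (word u)) := by
  rw [D_ch_apply, D_ch_apply, word_cons, map_mul, FreeAlgebra.lift_ι_apply]
  rfl

section

variable {X Xg : Fin 3 → Module.End ℚ T3}

theorem D_ch_gr (h1 : ∀ (i : Fin 3) (j : ℕ) (f : T3), f ∈ D_hom j → Xg i f ∈ D_hom (j + nbc [i]))
    (h2 : ∀ (i : Fin 3) (j : ℕ) (f : T3), f ∈ mV_F j →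
      X i f - Xg i f ∈ mV_F (j + nbc [i] + 1)) (m : ℕ) (f : T3) (hf : Fil m f) :
    D_pr m (D_ch X f) = D_ch Xg (D_pr m f) := by
  have h3 : ∀ (i : Fin 3) (j : ℕ) (f : T3), f ∈ mV_F j → Xg i f ∈ mV_F (j + nbc [i]) := by
    intro i j f hf
    have hle : mV_F j ≤ (mV_F (j + nbc [i])).comap (Xg i) := by
      apply Submodule.span_le.mpr
      rintro x ⟨v, hv, rfl⟩
      rw [SetLike.mem_coe, Submodule.mem_comap]
      exact D_hom_F (by omega) (h1 i _ _ (D_hom_word v))
    exact hle hf
  have h4 : ∀ u : List (Fin 3), D_ch Xg (word u) ∈ D_hom (nbc u) ∧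
      D_ch X (word u) - D_ch Xg (word u) ∈ mV_F (nbc u + 1) := by
    intro u
    induction u with
    | nil =>
      rw [D_ch_nil, D_ch_nil, sub_self]
      refine ⟨?_, Submodule.zero_mem _⟩
      rw [← word_nil]
      exact D_hom_word _
    | cons i u ih =>
      obtain ⟨i1, i2⟩ := ih
      rw [D_ch_cons, D_ch_cons, D_nbc_c i u]
      constructor
      · have := h1 i _ _ i1
        rwa [add_comm] at this
      · have e : X i (D_ch X (word u)) - Xg i (D_ch Xg (word u)) =
            (X i (D_ch X (word u)) - Xg i (D_ch X (word u))) +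
              Xg i (D_ch X (word u) - D_ch Xg (word u)) := by
          rw [map_sub]; abel
        rw [e]
        have i3 : D_ch X (word u) ∈ mV_F (nbc u) := by
          have : D_ch X (word u) = (D_ch X (word u) - D_ch Xg (word u)) + D_ch Xg (word u) := by
            abel
          rw [this]
          exact Submodule.add_mem _ (D_F_mono (by omega) i2) (D_hom_F le_rfl i1)
        apply Submodule.add_mem
        · have := h2 i _ _ i3
          rwa [add_comm (nbc u)] at this
        · have := h3 i _ _ i2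
          rwa [show nbc u + 1 + nbc [i] = nbc [i] + nbc u + 1 by omega] at this
  have h5 : ∀ g : T3, g ∈ mV_F (m + 1) → D_pr m g = 0 := by
    intro g hg
    rw [← mV_Fil_iff] at hg
    have e : ∀ w, coeff (D_pr m g) w = 0 := by
      intro w
      rw [D_pr_coeff]
      split_ifs with h
      · exact hg w (by omega)
      · rfl
    exact K_fil_zero _ (fun d w _ => e w)
  have h6 : ∀ g : T3, g ∈ D_hom m → D_pr m g = g := by
    intro g hg
    rw [D_hom_iff] at hg
    have e : ∀ w, coeff (D_pr m g - g) w = 0 := by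
      intro w
      rw [coeff_sub, D_pr_coeff]
      split_ifs with h
      · ring
      · rw [hg w h]; ring
    exact sub_eq_zero.1 (K_fil_zero _ (fun d w _ => e w))
  rw [mV_Fil_iff] at hf
  have hle : mV_F m ≤ LinearMap.ker ((D_pr m).comp (D_ch X) - (D_ch Xg).comp (D_pr m)) := by
    apply Submodule.span_le.mpr
    rintro x ⟨w, hw, rfl⟩
    rw [SetLike.mem_coe, LinearMap.mem_ker, LinearMap.sub_apply, LinearMap.comp_apply,
      LinearMap.comp_apply, D_pr_word]
    obtain ⟨i1, i2⟩ := h4 w
    have e : D_ch X (word w) = (D_ch X (word w) - D_ch Xg (word w)) + D_ch Xg (word w) := by abel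
    rw [e, map_add, h5 _ (D_F_mono (by omega) i2), zero_add]
    by_cases h : nbc w = m
    · rw [if_pos h, h6 _ (by rw [← h]; exact i1), sub_self]
    · rw [if_neg h, map_zero, sub_zero]
      exact h5 _ (D_hom_F (by omega) i1)
  have := hle hf
  rw [LinearMap.mem_ker, LinearMap.sub_apply, sub_eq_zero] at this
  exact this

end

/-! ### The operators -/

/-- the graded version of `d13` -/
def d13g : Module.End ℚ T3 := der ![0, 0, xc * xa - xa * xc]
/-- the graded version of `d12` -/
def d12g : Module.End ℚ T3 := der ![0, xb * xa - xa * xb, 0]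

theorem D_xa : xa ∈ D_hom 0 := D_hom_iota 0
theorem D_xb : xb ∈ D_hom 1 := D_hom_iota 1
theorem D_xc : xc ∈ D_hom 1 := D_hom_iota 2

theorem D_br {j k n : ℕ} {f g : T3} (hf : f ∈ D_hom j) (hg : g ∈ D_hom k) (h : j + k = n) :
    f * g - g * f ∈ D_hom n := by
  subst h
  refine Submodule.sub_mem _ (D_hom_mul hf hg) ?_
  have := D_hom_mul hg hf
  rwa [add_comm] at this

theorem D_der_sub (u v : Fin 3 → T3) (f : T3) : der u f - der v f = der (fun i => u i - v i) f := by
  have h : der (fun i => u i - v i) = der u - der v := by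
    symm
    apply der_unique
    · intro f g
      simp only [LinearMap.sub_apply, der_mul]
      noncomm_ring
    · intro i
      simp only [LinearMap.sub_apply, der_iota]
  rw [h]
  rfl

theorem D_d13 : d13 = der ![xa * xc - xc * xa, 0, xc * xa - xa * xc] := by
  have h : ¬ ((0 : Fin 3) = 2) := by decide
  unfold d13
  simp only [tau]
  rw [if_neg h]
  congr 1
  funext k
  fin_cases k <;> simp [xa, xc]

theorem D_d12 : d12 = der ![xa * xb - xb * xa, xb * xa - xa * xb, 0] := by
  have h : ¬ ((0 : Fin 3) = 1) := by decide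
  unfold d12
  simp only [tau]
  rw [if_neg h]
  congr 1
  funext k
  fin_cases k <;> simp [xa, xb]

theorem D_d23 : d23 = der ![0, xb * xc - xc * xb, xc * xb - xb * xc] := by
  have h : ¬ ((1 : Fin 3) = 2) := by decide
  unfold d23
  simp only [tau]
  rw [if_neg h]
  congr 1
  funext k
  fin_cases k <;> simp [xb, xc]

theorem D_d13g_hom (j : ℕ) (f : T3) (hf : f ∈ D_hom j) : d13g f ∈ D_hom j := by
  have := D_der_hom (e := 0) (u := ![0, 0, xc * xa - xa * xc]) (by
    intro i
    fin_cases i
    · simp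
    · simp
    · exact D_br D_xc D_xa rfl) hf
  exact this

theorem D_d12g_hom (j : ℕ) (f : T3) (hf : f ∈ D_hom j) : d12g f ∈ D_hom j := by
  have := D_der_hom (e := 0) (u := ![0, xb * xa - xa * xb, 0]) (by
    intro i
    fin_cases i
    · simp
    · exact D_br D_xb D_xa rfl
    · simp) hf
  exact this

theorem D_d23_hom (j : ℕ) (f : T3) (hf : f ∈ D_hom j) : d23 f ∈ D_hom (j + 1) := by
  rw [D_d23]
  have := D_der_hom (e := 1) (u := ![0, xb * xc - xc * xb, xc * xb - xb * xc]) (by
    intro i
    fin_cases i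
    · simp
    · exact D_br D_xb D_xc rfl
    · exact D_br D_xc D_xb rfl) hf
  exact this

theorem D_L_hom {k j : ℕ} {x f : T3} (hx : x ∈ D_hom k) (hf : f ∈ D_hom j) :
    LinearMap.mulLeft ℚ x f ∈ D_hom (j + k) := by
  rw [LinearMap.mulLeft_apply, add_comm]
  exact D_hom_mul hx hf

theorem D_d13_diff (j : ℕ) (f : T3) (hf : f ∈ mV_F j) : d13 f - d13g f ∈ mV_F (j + 1) := by
  rw [D_d13, d13g, D_der_sub]
  refine D_der_F (e := 1) ?_ hf
  intro i
  fin_cases i
  · simp only [Fin.zero_eta, Matrix.cons_val_zero, sub_zero]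
    exact D_hom_F le_rfl (D_br D_xa D_xc rfl)
  · simp
  · simp

theorem D_d12_diff (j : ℕ) (f : T3) (hf : f ∈ mV_F j) : d12 f - d12g f ∈ mV_F (j + 1) := by
  rw [D_d12, d12g, D_der_sub]
  refine D_der_F (e := 1) ?_ hf
  intro i
  fin_cases i
  · simp only [Fin.zero_eta, Matrix.cons_val_zero, sub_zero]
    exact D_hom_F le_rfl (D_br D_xa D_xb rfl)
  · simp
  · simp

/-! ### The coordinate changes -/

/-- `R → Q` and `Q → R` -/
def chRQ : Fin 3 → Module.End ℚ T3 := ![d13, d23, Lc]
/-- `R → P` -/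
def chRP : Fin 3 → Module.End ℚ T3 := ![d13, Lc, d23]
/-- `P → R` -/
def chPR : Fin 3 → Module.End ℚ T3 := ![d12, d23, Lb]
/-- `Q → P` and `P → Q` -/
def chQP : Fin 3 → Module.End ℚ T3 := ![d12, Lb, d23]
/-- graded `R → Q` and `Q → R` -/
def chRQg : Fin 3 → Module.End ℚ T3 := ![d13g, d23, Lc]
/-- graded `R → P` -/
def chRPg : Fin 3 → Module.End ℚ T3 := ![d13g, Lc, d23]
/-- graded `P → R` -/
def chPRg : Fin 3 → Module.End ℚ T3 := ![d12g, d23, Lb]
/-- graded `Q → P` and `P → Q` -/
def chQPg : Fin 3 → Module.End ℚ T3 := ![d12g, Lb, d23]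

theorem D_grRQ {m : ℕ} {f : T3} (hf : Fil m f) :
    D_pr m (D_ch chRQ f) = D_ch chRQg (D_pr m f) := by
  refine D_ch_gr ?_ ?_ m f hf
  · intro i j f hf
    fin_cases i
    · exact D_d13g_hom j f hf
    · exact D_d23_hom j f hf
    · exact D_L_hom D_xc hf
  · intro i j f hf
    fin_cases i
    · exact D_d13_diff j f hf
    · simp [chRQ, chRQg]
    · simp [chRQ, chRQg]

theorem D_grRP {m : ℕ} {f : T3} (hf : Fil m f) :
    D_pr m (D_ch chRP f) = D_ch chRPg (D_pr m f) := by
  refine D_ch_gr ?_ ?_ m f hf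
  · intro i j f hf
    fin_cases i
    · exact D_d13g_hom j f hf
    · exact D_L_hom D_xc hf
    · exact D_d23_hom j f hf
  · intro i j f hf
    fin_cases i
    · exact D_d13_diff j f hf
    · simp [chRP, chRPg]
    · simp [chRP, chRPg]

theorem D_grPR {m : ℕ} {f : T3} (hf : Fil m f) :
    D_pr m (D_ch chPR f) = D_ch chPRg (D_pr m f) := by
  refine D_ch_gr ?_ ?_ m f hf
  · intro i j f hf
    fin_cases i
    · exact D_d12g_hom j f hf
    · exact D_d23_hom j f hf
    · exact D_L_hom D_xb hf
  · intro i j f hf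
    fin_cases i
    · exact D_d12_diff j f hf
    · simp [chPR, chPRg]
    · simp [chPR, chPRg]

theorem D_grQP {m : ℕ} {f : T3} (hf : Fil m f) :
    D_pr m (D_ch chQP f) = D_ch chQPg (D_pr m f) := by
  refine D_ch_gr ?_ ?_ m f hf
  · intro i j f hf
    fin_cases i
    · exact D_d12g_hom j f hf
    · exact D_L_hom D_xb hf
    · exact D_d23_hom j f hf
  · intro i j f hf
    fin_cases i
    · exact D_d12_diff j f hf
    · simp [chQP, chQPg]
    · simp [chQP, chQPg]

end

end Pent
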