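import Pool.Agent.Lib.MP_a57f33_nt.PN.D.Gr
import Pool.Agent.Lib.MP_a57f33_nt.PN.T.Seven

/-!
# Pentagon project (MP_a57f33_nt): all relations between the lowest depth parts of the coordinate
expressions `R`, `Q`, `P` of the pentagon defect

`KG m R Q P`; `S_KG m` : the only solution is `0`. `pentagon_of_KG`, `trunc_of_KG`.
-/

set_option autoImplicit false

namespace Pent

open Pool.Agent.MP_a57f33_nt
open Pool.Agent.MP_a57f33_nt.Cyc (shuffle)

universe v

noncomputable section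

/-! ### Transfer -/

theorem D_transfer {φ : QX} (hφ : Good φ) (w' : Option (Fin 3) → Option (Fin 3))
    (hw' : Function.Injective w') (w : Fin 4 → Option (Fin 3)) (hw : Function.Injective w) :
    D_ch (fun i => tau (w' (some i)) (w' none)) (Rw φ w) = Rw φ (fun i => w' (w i)) := by
  have hb := p_tau (Fin 3)
  have ht : Braid (fun i j => (tau (w' i) (w' j) : Module.End ℚ T3)) := by
    refine ⟨fun i j => hb.symm _ _, fun i j k l h1 h2 h3 h4 h5 h6 => ?_, fun i j k h1 h2 h3 => ?_⟩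
    · exact hb.four _ _ _ _ (hw'.ne h1) (hw'.ne h2) (hw'.ne h3) (hw'.ne h4) (hw'.ne h5)
        (hw'.ne h6)
    · exact hb.three _ _ _ (hw'.ne h1) (hw'.ne h2) (hw'.ne h3)
  have h := p_univ.{0} φ hφ w hw (Module.End ℚ T3) (fun i j => tau (w' i) (w' j)) ht
  have h2 := congrArg (fun O : Module.End ℚ T3 => O 1) h
  exact h2.symm

/-- exchange of the strands `c` and fibre -/
def D_w1 : Option (Fin 3) → Option (Fin 3)
  | none => some 2
  | some i => ![some 0, some 1, none] i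
/-- `wR ↦ wP` -/
def D_w2 : Option (Fin 3) → Option (Fin 3)
  | none => some 2
  | some i => ![some 0, none, some 1] i
/-- `wP ↦ wR` -/
def D_w3 : Option (Fin 3) → Option (Fin 3)
  | none => some 1
  | some i => ![some 0, some 2, none] i
/-- `wQ ↔ wP` -/
def D_w4 : Option (Fin 3) → Option (Fin 3)
  | none => some 1
  | some i => ![some 0, none, some 2] i

theorem D_w1_inj : Function.Injective D_w1 := by decide
theorem D_w2_inj : Function.Injective D_w2 := by decide
theorem D_w3_inj : Function.Injective D_w3 := by decide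
theorem D_w4_inj : Function.Injective D_w4 := by decide

theorem D_tRQ {φ : QX} (hφ : Good φ) : D_ch chRQ (Rw φ wR) = Rw φ wQ := by
  have h := D_transfer hφ D_w1 D_w1_inj wR wR_inj
  have e1 : (fun i => tau (D_w1 (some i)) (D_w1 none)) = chRQ := by
    funext i
    fin_cases i <;> rfl
  have e2 : (fun i => D_w1 (wR i)) = wQ := by
    funext i
    fin_cases i <;> rfl
  rwa [e1, e2] at h

theorem D_tQR {φ : QX} (hφ : Good φ) : D_ch chRQ (Rw φ wQ) = Rw φ wR := by
  have h := D_transfer hφ D_w1 D_w1_inj wQ wQ_inj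
  have e1 : (fun i => tau (D_w1 (some i)) (D_w1 none)) = chRQ := by
    funext i
    fin_cases i <;> rfl
  have e2 : (fun i => D_w1 (wQ i)) = wR := by
    funext i
    fin_cases i <;> rfl
  rwa [e1, e2] at h

theorem D_tRP {φ : QX} (hφ : Good φ) : D_ch chRP (Rw φ wR) = Rw φ wP := by
  have h := D_transfer hφ D_w2 D_w2_inj wR wR_inj
  have e1 : (fun i => tau (D_w2 (some i)) (D_w2 none)) = chRP := by
    funext i
    fin_cases i <;> rfl
  have e2 : (fun i => D_w2 (wR i)) = wP := by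
    funext i
    fin_cases i <;> rfl
  rwa [e1, e2] at h

theorem D_tPR {φ : QX} (hφ : Good φ) : D_ch chPR (Rw φ wP) = Rw φ wR := by
  have h := D_transfer hφ D_w3 D_w3_inj wP wP_inj
  have e1 : (fun i => tau (D_w3 (some i)) (D_w3 none)) = chPR := by
    funext i
    fin_cases i
    · rfl
    · exact tau_symm _ _
    · rfl
  have e2 : (fun i => D_w3 (wP i)) = wR := by
    funext i
    fin_cases i <;> rfl
  rwa [e1, e2] at h

theorem D_tQP {φ : QX} (hφ : Good φ) : D_ch chQP (Rw φ wQ) = Rw φ wP := by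
  have h := D_transfer hφ D_w4 D_w4_inj wQ wQ_inj
  have e1 : (fun i => tau (D_w4 (some i)) (D_w4 none)) = chQP := by
    funext i
    fin_cases i
    · rfl
    · rfl
    · exact tau_symm _ _
  have e2 : (fun i => D_w4 (wQ i)) = wP := by
    funext i
    fin_cases i <;> rfl
  rwa [e1, e2] at h

theorem D_tPQ {φ : QX} (hφ : Good φ) : D_ch chQP (Rw φ wP) = Rw φ wQ := by
  have h := D_transfer hφ D_w4 D_w4_inj wP wP_inj
  have e1 : (fun i => tau (D_w4 (some i)) (D_w4 none)) = chQP := by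
    funext i
    fin_cases i
    · rfl
    · rfl
    · exact tau_symm _ _
  have e2 : (fun i => D_w4 (wP i)) = wQ := by
    funext i
    fin_cases i <;> rfl
  rwa [e1, e2] at h

/-! ### The parts of a Lie element are Lie elements -/

theorem D_pr_mul (m : ℕ) (f g : T3) :
    D_pr m (f * g) = ∑ p ∈ Finset.HasAntidiagonal.antidiagonal m, D_pr p.1 f * D_pr p.2 g := by
  -- bilinear, check on words
  have h : ∀ u : List (Fin 3), ((D_pr m).comp (LinearMap.mulLeft ℚ (word u))) =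
      ∑ p ∈ Finset.HasAntidiagonal.antidiagonal m, (LinearMap.mulLeft ℚ (D_pr p.1 (word u))).comp (D_pr p.2) := by
    intro u
    apply linear_ext
    intro v
    simp only [LinearMap.comp_apply, LinearMap.mulLeft_apply, LinearMap.sum_apply, D_pr_word]
    rw [← word_append, D_pr_word, mV_nbc_append]
    by_cases h : nbc u + nbc v = m
    · rw [if_pos h, Finset.sum_eq_single (nbc u, nbc v)]
      · simp [word_append]
      · rintro ⟨i, j⟩ _ hne
        by_cases h1 : nbc u = i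
        · by_cases h2 : nbc v = j
          · exact absurd (by rw [h1, h2]) hne
          · simp [h2]
        · simp [h1]
      · intro h1
        exact absurd (Finset.HasAntidiagonal.mem_antidiagonal.2 h) h1
    · rw [if_neg h]
      symm
      apply Finset.sum_eq_zero
      rintro ⟨i, j⟩ hij
      rw [Finset.HasAntidiagonal.mem_antidiagonal] at hij
      by_cases h1 : nbc u = i
      · by_cases h2 : nbc v = j
        · subst h1; subst h2
          exact absurd hij h
        · simp [h2]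
      · simp [h1]
  have h2 : (D_pr m).comp (LinearMap.mulRight ℚ g) =
      ∑ p ∈ Finset.HasAntidiagonal.antidiagonal m, (LinearMap.mulRight ℚ (D_pr p.2 g)).comp (D_pr p.1) := by
    apply linear_ext
    intro u
    have := LinearMap.congr_fun (h u) g
    simpa [LinearMap.sum_apply] using this
  have h3 := LinearMap.congr_fun h2 f
  simpa [LinearMap.sum_apply] using h3

attribute [local instance 100] LieRing.ofAssociativeRing

theorem D_pr_lie {f : T3} (hf : f ∈ LieT (Fin 3)) : ∀ m, D_pr m f ∈ LieT (Fin 3) := by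
  have mem : ∀ g : T3, g ∈ LieT (Fin 3) ↔
    g ∈ LieSubalgebra.lieSpan ℚ T3 (Set.range (FreeAlgebra.ι ℚ)) := fun g => Iff.rfl
  refine clie_induction (P := fun f => ∀ m, D_pr m f ∈ LieT (Fin 3)) ?_ ?_ ?_ ?_ ?_ hf
  · intro b m
    have e : (FreeAlgebra.ι ℚ b : T3) = word [b] := by simp
    rw [e, D_pr_word, mem]
    split_ifs
    · rw [← e]
      exact LieSubalgebra.subset_lieSpan ⟨b, rfl⟩
    · exact zero_mem _
  · intro m
    rw [map_zero, mem]
    exact zero_mem _
  · intro x y hx hy m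
    rw [map_add, mem]
    exact add_mem ((mem _).1 (hx m)) ((mem _).1 (hy m))
  · intro r x hx m
    rw [map_smul, mem]
    exact SMulMemClass.smul_mem r ((mem _).1 (hx m))
  · intro x y hx hy m
    have e : D_pr m (x * y - y * x) = ∑ p ∈ Finset.HasAntidiagonal.antidiagonal m,
        (D_pr p.1 x * D_pr p.2 y - D_pr p.2 y * D_pr p.1 x) := by
      rw [map_sub, D_pr_mul, D_pr_mul, Finset.sum_sub_distrib]
      congr 1
      rw [← Finset.Nat.sum_antidiagonal_swap]
      rfl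
    rw [e, mem]
    apply sum_mem
    intro p _
    have := (LieSubalgebra.lieSpan ℚ T3 (Set.range (FreeAlgebra.ι ℚ))).lie_mem
      ((mem _).1 (hx p.1)) ((mem _).1 (hy p.2))
    rwa [Ring.lie_def] at this

/-! ### The relations in lowest depth -/

/-- All relations between the parts of depth `m` of `R`, `Q`, `P` (letters `a = 0`, `b = 1`,
`c = 2`), if there are no parts of smaller depth. `R`, `Q`, `P` are the coordinate expressions of
one element of the graded algebra in the fibres of the strands `3`, `2`, `1`. -/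
structure KG (m : ℕ) (R Q P : T3) : Prop where
  lieR : R ∈ LieT (Fin 3)
  lieQ : Q ∈ LieT (Fin 3)
  lieP : P ∈ LieT (Fin 3)
  homR : ∀ w, nbc w ≠ m → coeff R w = 0
  homQ : ∀ w, nbc w ≠ m → coeff Q w = 0
  homP : ∀ w, nbc w ≠ m → coeff P w = 0
  R0 : ∀ w, 0 ∉ w → coeff R w = 0
  Q0 : ∀ w, 0 ∉ w → coeff Q w = 0
  P0 : ∀ w, 0 ∉ w → coeff P w = 0
  R1 : ∀ w, w.count 1 ≤ 2 → coeff R w = 0
  R2 : ∀ w, w.count 2 ≤ 1 → coeff R w = 0
  Q1 : ∀ w, w.count 1 ≤ 1 → coeff Q w = 0
  Q2 : ∀ w, w.count 2 ≤ 1 → coeff Q w = 0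
  P1 : ∀ w, w.count 1 ≤ 1 → coeff P w = 0
  P2 : ∀ w, w.count 2 ≤ 1 → coeff P w = 0
  /-- `R` is zero at words without `b` before `c` (from the stuffle relations) -/
  cz : ClassZero R
  a : ∀ w, coeff R (w ++ [2]) = coeff R (2 :: w)
  /-- (24) -/
  b : ∀ w, coeff Q (w ++ [2]) = coeff R (2 :: w) - coeff R (1 :: w)
  /-- (14) -/
  c : ∀ w, coeff P (w ++ [2]) = - coeff R (1 :: w)
  d : ∀ w, coeff P (w ++ [1]) = coeff P (1 :: w)
  r13 : ∀ w, coeff P (w ++ [1]) - coeff P (w ++ [2]) = coeff Q (1 :: w)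
  r34 : ∀ w, dblD (coeff R) w + coeff R (w ++ [2]) = 0
  r23 : ∀ w, dblD (coeff Q) w + coeff Q (w ++ [2]) + coeff Q (1 :: w) = 0
  r12 : ∀ w, dblD (coeff P) w + coeff P (w ++ [1]) = 0
  sum : Q = R + P
  RQ : D_ch chRQg R = Q
  QR : D_ch chRQg Q = R
  RP : D_ch chRPg R = P
  PR : D_ch chPRg P = R
  QP : D_ch chQPg Q = P
  PQ : D_ch chQPg P = Q

/-- **The graded statement**: the relations have only the zero solution. -/
def S_KG (m : ℕ) : Prop := ∀ R Q P : T3, KG m R Q P → R = 0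

/-- a Lie function that vanishes at words ending in `c` and at words without `c` is zero -/
theorem D_last_zero {g : List (Fin 3) → ℚ} {c : Fin 3} (hg : D_Lf g)
    (h0 : ∀ w : List (Fin 3), g (w ++ [c]) = 0) (h1 : ∀ w : List (Fin 3), c ∉ w → g w = 0) :
    ∀ w : List (Fin 3), g w = 0 := by
  intro w
  by_cases hc : c ∈ w
  · obtain ⟨A, B, rfl⟩ := List.append_of_mem hc
    rw [mov_lie g hg B A c, D_sh_van, mul_zero]
    intro t _
    exact h0 t
  · exact h1 w hc

theorem D_ext {f g : T3} (h : ∀ w, coeff f w = coeff g w) : f = g := by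
  apply sub_eq_zero.1
  apply K_fil_zero
  intro d w _
  rw [coeff_sub, h, sub_self]

/-- `dblD` of the part of depth `m` -/
theorem D_pr_dbl {m : ℕ} {f : T3} (hf : Fil m f) (w : List (Fin 3)) :
    dblD (coeff (D_pr m f)) w = if nbc w + 1 = m then dbl (coeff f) w else 0 := by
  have e : coeff (D_pr m f) = D_part m (coeff f) := by
    funext w
    exact D_pr_coeff m f w
  rw [e]
  have h := D_part_dbl (m := m) (g := coeff f) hf w []
  simp only [List.nil_append] at h
  rw [h]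
  simp [nbc]

theorem D_nbc_snoc (w : List (Fin 3)) {x : Fin 3} (hx : x ≠ 0) : nbc (w ++ [x]) = nbc w + 1 := by
  rw [D_nbc_append, D_nbc_cons, if_neg hx]
  simp [nbc]

theorem D_nbc_cs (w : List (Fin 3)) {x : Fin 3} (hx : x ≠ 0) : nbc (x :: w) = nbc w + 1 := by
  rw [D_nbc_cons, if_neg hx, add_comm]

theorem D_KG {φ : QX} (hφ : Good φ) (hcz : ClassZero (Rw φ wR))
    (hR : ∀ w : List (Fin 3), (w.count 1 ≤ 1 ∨ w.count 2 ≤ 1) → coeff (Rw φ wR) w = 0)
    (m : ℕ) (fR : Fil m (Rw φ wR)) (fQ : Fil m (Rw φ wQ)) (fP : Fil m (Rw φ wP)) :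
    KG m (D_pr m (Rw φ wR)) (D_pr m (Rw φ wQ)) (D_pr m (Rw φ wP)) := by
  have hD := p_dbl hφ hR
  have hforg := p_forg p_univ p_tau φ hφ
  have hLm : ∀ w, D_pr m (Rw φ w) ∈ LieT (Fin 3) := fun w => D_pr_lie (p_lieR φ hφ w).1 m
  have hL : ∀ w, D_Lf (coeff (D_pr m (Rw φ w))) := fun w => (p_clie (Fin 3) _ (hLm w)).2
  have z : ∀ {f : T3} {w : List (Fin 3)}, coeff f w = 0 → coeff (D_pr m f) w = 0 := by
    intro f w h
    rw [D_pr_coeff, h, ite_self]
  have h12 : (1 : Fin 3) ≠ 0 := by decide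
  have h20 : (2 : Fin 3) ≠ 0 := by decide
  have low : ∀ {f : T3} {w : List (Fin 3)} (_ : Fil m f) (_ : nbc w + 1 = m),
      (if 0 ∈ w then coeff f (0 :: w) else 0) = 0 := by
    intro f w hf hw
    split_ifs
    · apply hf
      rw [D_nbc_cons]
      simp only [if_true]
      omega
    · rfl
  have ha : ∀ w, coeff (D_pr m (Rw φ wR)) (w ++ [2]) = coeff (D_pr m (Rw φ wR)) (2 :: w) := by
    intro w
    rw [D_pr_coeff, D_pr_coeff, D_nbc_snoc w h20, D_nbc_cs w h20, hD.abc.a]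
  have hb : ∀ w, coeff (D_pr m (Rw φ wQ)) (w ++ [2]) =
      coeff (D_pr m (Rw φ wR)) (2 :: w) - coeff (D_pr m (Rw φ wR)) (1 :: w) := by
    intro w
    rw [D_pr_coeff, D_pr_coeff, D_pr_coeff, D_nbc_snoc w h20, D_nbc_cs w h20, D_nbc_cs w h12,
      hD.abc.b]
    split_ifs <;> ring
  have hc : ∀ w, coeff (D_pr m (Rw φ wP)) (w ++ [2]) = - coeff (D_pr m (Rw φ wR)) (1 :: w) := by
    intro w
    rw [D_pr_coeff, D_pr_coeff, D_nbc_snoc w h20, D_nbc_cs w h12]
    by_cases h : nbc w + 1 = m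
    · rw [if_pos h, if_pos h, hD.abc.c, low fR h, add_zero]
    · rw [if_neg h, if_neg h, neg_zero]
  have h5 : ∀ w, dblD (coeff (D_pr m (Rw φ wP))) w + coeff (D_pr m (Rw φ wP)) (w ++ [1]) = 0 := by
    intro w
    rw [D_pr_dbl fP, D_pr_coeff, D_nbc_snoc w h12]
    by_cases h : nbc w + 1 = m
    · rw [if_pos h, if_pos h]
      have := hD.r12 w
      rwa [low fP h, add_zero] at this
    · rw [if_neg h, if_neg h, add_zero]
  refine ⟨hLm wR, hLm wQ, hLm wP, ?_, ?_, ?_, ?_, ?_, ?_, ?_, ?_, ?_, ?_, ?_, ?_, ?_, ha, hb, hc,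
    D_k2_of_k5 (hL wP) h5, ?_, ?_, ?_, h5, ?_, ?_, ?_, ?_, ?_, ?_, ?_⟩
  · intro w hw; rw [D_pr_coeff, if_neg hw]
  · intro w hw; rw [D_pr_coeff, if_neg hw]
  · intro w hw; rw [D_pr_coeff, if_neg hw]
  · intro w hw; exact z (hforg wR wR_inj 0 w hw)
  · intro w hw; exact z (hforg wQ wQ_inj 0 w hw)
  · intro w hw; exact z (hforg wP wP_inj 0 w hw)
  · intro w hw; exact z (hD.R1 w hw)
  · intro w hw; exact z (hD.R2 w hw)
  · intro w hw; exact z (hD.Q1 w hw)
  · intro w hw; exact z (hD.Q2 w hw)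
  · intro w hw; exact z (hD.P1 w hw)
  · intro w hw; exact z (hD.P2 w hw)
  · intro u w hu hw; exact z (hcz u w hu hw)
  · -- r13
    intro w
    rw [D_pr_coeff, D_pr_coeff, D_pr_coeff, D_nbc_snoc w h20, D_nbc_snoc w h12, D_nbc_cs w h12]
    by_cases h : nbc w + 1 = m
    · rw [if_pos h, if_pos h, if_pos h, hD.r13, low fQ h, sub_zero]
    · rw [if_neg h, if_neg h, if_neg h, sub_zero]
  · -- r34
    intro w
    rw [D_pr_dbl fR, D_pr_coeff, D_nbc_snoc w h20]
    by_cases h : nbc w + 1 = m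
    · rw [if_pos h, if_pos h]
      exact hD.r34 w
    · rw [if_neg h, if_neg h, add_zero]
  · -- r23
    intro w
    rw [D_pr_dbl fQ, D_pr_coeff, D_pr_coeff, D_nbc_snoc w h20, D_nbc_cs w h12]
    by_cases h : nbc w + 1 = m
    · rw [if_pos h, if_pos h, if_pos h]
      exact hD.r23 w
    · rw [if_neg h, if_neg h, if_neg h, add_zero, add_zero]
  · -- sum
    apply D_ext
    intro w
    have hg : D_Lf (fun t => coeff (D_pr m (Rw φ wQ) - (D_pr m (Rw φ wR) + D_pr m (Rw φ wP))) t) := by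
      have hmem : D_pr m (Rw φ wQ) - (D_pr m (Rw φ wR) + D_pr m (Rw φ wP)) ∈ LieT (Fin 3) := by
        have mem : ∀ g : T3, g ∈ LieT (Fin 3) ↔
          g ∈ LieSubalgebra.lieSpan ℚ T3 (Set.range (FreeAlgebra.ι ℚ)) := fun g => Iff.rfl
        rw [mem]
        exact sub_mem ((mem _).1 (hLm wQ)) (add_mem ((mem _).1 (hLm wR)) ((mem _).1 (hLm wP)))
      exact (p_clie (Fin 3) _ hmem).2
    have h0 := D_last_zero (c := 2) hg ?_ ?_ w
    · rw [coeff_sub] at h0
      exact sub_eq_zero.1 h0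
    · intro w
      rw [coeff_sub, coeff_add, hb, hc, ha]
      ring
    · intro w hw
      rw [coeff_sub, coeff_add, z (hforg wR wR_inj 2 w hw), z (hforg wQ wQ_inj 2 w hw),
        z (hforg wP wP_inj 2 w hw)]
      ring
  · rw [← D_grRQ fR, D_tRQ hφ]
  · rw [← D_grRQ fQ, D_tQR hφ]
  · rw [← D_grRP fR, D_tRP hφ]
  · rw [← D_grPR fP, D_tPR hφ]
  · rw [← D_grQP fQ, D_tQP hφ]
  · rw [← D_grQP fP, D_tPQ hφ]

/-- `S_KG m` for `m ≤ n0`: `R`, `Q`, `P` have no words of depth at most `n0` -/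
theorem D_filG {φ : QX} (hφ : Good φ) (hcz : ClassZero (Rw φ wR))
    (hR : ∀ w : List (Fin 3), (w.count 1 ≤ 1 ∨ w.count 2 ≤ 1) → coeff (Rw φ wR) w = 0)
    (n0 : ℕ) (hK : ∀ m, m ≤ n0 → S_KG m) :
    Fil (n0 + 1) (Rw φ wR) ∧ Fil (n0 + 1) (Rw φ wQ) ∧ Fil (n0 + 1) (Rw φ wP) := by
  have h : ∀ m, m ≤ n0 + 1 →
      Fil m (Rw φ wR) ∧ Fil m (Rw φ wQ) ∧ Fil m (Rw φ wP) := by
    intro m
    induction m with
    | zero => intro _; exact ⟨fun w hw => by omega, fun w hw => by omega, fun w hw => by omega⟩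
    | succ m ih =>
      intro hm
      obtain ⟨i1, i2, i3⟩ := ih (by omega)
      have hKG := D_KG hφ hcz hR m i1 i2 i3
      have hR0 := hK m (by omega) _ _ _ hKG
      have hQ0 : D_pr m (Rw φ wQ) = 0 := by rw [← hKG.RQ, hR0, map_zero]
      have hP0 : D_pr m (Rw φ wP) = 0 := by rw [← hKG.RP, hR0, map_zero]
      have step : ∀ f : T3, Fil m f → D_pr m f = 0 → Fil (m + 1) f := by
        intro f hf h0 w hw
        by_cases h4 : nbc w < m
        · exact hf w h4
        · have h5 : nbc w = m := by omega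
          have h6 := congrArg (fun g => coeff g w) h0
          simp only [D_pr_coeff, if_pos h5, coeff_zero] at h6
          exact h6
      exact ⟨step _ i1 hR0, step _ i2 hQ0, step _ i3 hP0⟩
  exact h (n0 + 1) le_rfl

/-- **The graded statement for all `m` implies the pentagon equation for all elements of
`dm₀`.** -/
theorem pentagon_of_KG (hK : ∀ m, S_KG m) : S_main.{v} := by
  intro ψ hψ A _ _ t ht
  have hφ : Good (sgn ψ) := sgn_good hψ
  have hcz := s_F1 ψ hψ
  have hR := p_few p_clie p_mov _ (p_lieR _ hφ wR).1 hcz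
  have hR0 : Rw (sgn ψ) wR = 0 := by
    apply K_fil_zero
    intro d l hl
    exact (D_filG hφ hcz hR d (fun m _ => hK m)).1 l (by omega)
  have h5 := p_univ.{v} (sgn ψ) hφ wR wR_inj A (fun p q => t (eS p) (eS q)) (braid_eS ht)
  simp only [eS_wR] at h5
  rw [h5, hR0, map_zero]

/-- **The graded statement for `m ≤ n0` implies the pentagon equation modulo depth `n0 + 1`.** -/
theorem trunc_of_KG (n0 : ℕ) (hK : ∀ m, m ≤ n0 → S_KG m) : S_trunc.{v} (n0 + 1) := by
  intro ψ hψ A _ _ t ht j hj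
  have hφ : Good (sgn ψ) := sgn_good hψ
  have hcz := s_F1 ψ hψ
  have hR := p_few p_clie p_mov _ (p_lieR _ hφ wR).1 hcz
  obtain ⟨f1, f3, f2⟩ := D_filG hφ hcz hR n0 hK
  have hj' : j = 3 ∨ j = 2 ∨ j = 1 := by omega
  rcases hj' with rfl | rfl | rfl
  · exact T_of_fil hφ wR wR_inj eS eS_inj eS_wR rfl _ f1 t ht
  · exact T_of_fil hφ wQ wQ_inj eQ eQ_inj (by intro i; fin_cases i <;> rfl) rfl _ f3 t ht
  · exact T_of_fil hφ wP wP_inj eP eP_inj (by intro i; fin_cases i <;> rfl) rfl _ f2 t ht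

/-- **Only depth `7` is missing for the pentagon equation modulo depth `8`.** -/
theorem trunc_eight_of_KG (h7 : S_KG 7) : S_trunc.{v} 8 := by
  intro ψ hψ A _ _ t ht j hj
  have hφ : Good (sgn ψ) := sgn_good hψ
  have hcz := s_F1 ψ hψ
  have hR := p_few p_clie p_mov _ (p_lieR _ hφ wR).1 hcz
  have hall := T_fil_of_Bb 5 (S_Bb_of_EDb 5 S_EDb_five) ψ hψ
  have f1 : Fil 7 (Rw (sgn ψ) wR) := hall _ (by simp)
  have f2 : Fil 7 (Rw (sgn ψ) wQ) := hall _ (by simp)
  have f3 : Fil 7 (Rw (sgn ψ) wP) := hall _ (by simp)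
  have hKG := D_KG hφ hcz hR 7 f1 f2 f3
  have hR0 := h7 _ _ _ hKG
  have hQ0 : D_pr 7 (Rw (sgn ψ) wQ) = 0 := by rw [← hKG.RQ, hR0, map_zero]
  have hP0 : D_pr 7 (Rw (sgn ψ) wP) = 0 := by rw [← hKG.RP, hR0, map_zero]
  have step : ∀ f : T3, Fil 7 f → D_pr 7 f = 0 → Fil 8 f := by
    intro f hf h0 w hw
    by_cases h4 : nbc w < 7
    · exact hf w h4
    · have h5 : nbc w = 7 := by omega
      have h6 := congrArg (fun g => coeff g w) h0
      simp only [D_pr_coeff, if_pos h5, coeff_zero] at h6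
      exact h6
  have hj' : j = 3 ∨ j = 2 ∨ j = 1 := by omega
  rcases hj' with rfl | rfl | rfl
  · exact T_of_fil hφ wR wR_inj eS eS_inj eS_wR rfl _ (step _ f1 hR0) t ht
  · exact T_of_fil hφ wQ wQ_inj eQ eQ_inj (by intro i; fin_cases i <;> rfl) rfl _
      (step _ f2 hQ0) t ht
  · exact T_of_fil hφ wP wP_inj eP eP_inj (by intro i; fin_cases i <;> rfl) rfl _
      (step _ f3 hP0) t ht

end

end Pent
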