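import Pool.Agent.Lib.MP_a57f33_nt.PN.D.Rel

/-!
# Pentagon project (MP_a57f33_nt): proof of the doubling relations

`p_dbl` : the relations `Dbl` for `R = Rw φ wR`, `Q = Rw φ wQ`, `P = Rw φ wP`, if `R` has no words
with at most one letter `b` or at most one letter `c`; moreover `R` has no words with at most two
letters `b`, `Q` and `P` have no words with at most one letter `b` or at most one letter `c`.
-/

set_option autoImplicit false

namespace Pent

open Pool.Agent.MP_a57f33_nt
open Pool.Agent.MP_a57f33_nt.Cyc (shuffle sh)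

noncomputable section

theorem D_onec {g : List (Fin 3) → ℚ} {c : Fin 3}
    (hg : ∀ u v : List (Fin 3), u ≠ [] → v ≠ [] → ((shuffle u v).map g).sum = 0)
    (h0 : ∀ w : List (Fin 3), c ∉ w → g (w ++ [c]) = 0)
    (h1 : ∀ w : List (Fin 3), c ∉ w → g w = 0) :
    ∀ w : List (Fin 3), w.count c ≤ 1 → g w = 0 := by
  intro w hw
  by_cases hc : c ∈ w
  · obtain ⟨A, B, rfl⟩ := List.append_of_mem hc
    rw [mov_lie g hg B A c, D_sh_van, mul_zero]
    intro t ht
    apply h0
    rw [List.count_append, List.count_cons_self] at hw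
    have hA : c ∉ A := List.count_eq_zero.1 (by omega)
    have hB : c ∉ B := List.count_eq_zero.1 (by omega)
    intro h
    rcases List.mem_append.1 (ht.mem_iff.1 h) with h | h
    · exact hA h
    · exact hB (by simpa using h)
  · exact h1 w hc

/-- doubling of the only letter `b` -/
theorem D_dbl_one {b : Fin 3} : ∀ (A B : List (Fin 3)) (g : List (Fin 3) → ℚ),
    (∀ w : List (Fin 3), w.count b ≤ 1 → g w = 0) → b ∉ A → b ∉ B →
      dbl g (A ++ b :: B) = g (A ++ b :: b :: B) := by
  intro A
  induction A with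
  | nil =>
    intro B g hg _ hB
    simp only [List.nil_append, dbl]
    have h1 : dbl (fun t => g (b :: t)) B = dbl (fun _ => (0 : ℚ)) B := by
      apply dbl_congr
      intro A' x r h
      apply hg
      have hx : b ∉ A' ++ x :: x :: r := by
        intro h2
        apply hB
        rw [h]
        simp only [List.mem_append, List.mem_cons] at h2 ⊢
        tauto
      rw [List.count_cons_self, List.count_eq_zero_of_not_mem hx]
    rw [h1, dbl_zero, add_zero]
  | cons a A ih =>
    intro B g hg hA hB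
    have hab : a ≠ b := fun h => hA (by simp [h])
    have hA' : b ∉ A := fun h => hA (by simp [h])
    simp only [List.cons_append, dbl]
    rw [ih B (fun t => g (a :: t)) (fun w hw => hg _ (by
      rw [List.count_cons_of_ne hab]; exact hw)) hA' hB]
    rw [hg, zero_add]
    rw [List.count_cons_of_ne hab, List.count_cons_of_ne hab, List.count_append,
      List.count_cons_self, List.count_eq_zero_of_not_mem hA', List.count_eq_zero_of_not_mem hB]

theorem D_coc (φ : QX) (t : Option (Fin 4) → Option (Fin 4) → Module.End ℚ T4)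
    (u : List (Fin 4)) :
    coeff (coc_D φ t ![{some 1}, {some 2}, {some 3}, {none}] 1) u
      - coeff (coc_D φ t ![{some 0, some 1}, {some 2}, {some 3}, {none}] 1) u
      + coeff (coc_D φ t ![{some 0}, {some 1, some 2}, {some 3}, {none}] 1) u
      - coeff (coc_D φ t ![{some 0}, {some 1}, {some 2, some 3}, {none}] 1) u
      + coeff (coc_D φ t ![{some 0}, {some 1}, {some 2}, {some 3, none}] 1) u
      - coeff (coc_D φ t ![{some 0}, {some 1}, {some 2}, {some 3}] 1) u = 0 := by
  have hc := LinearMap.congr_fun (coc_cocycle φ t) 1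
  have hc2 := congrArg (fun f => coeff f u) hc
  simp only [LinearMap.sub_apply, LinearMap.add_apply, LinearMap.zero_apply, coeff_sub,
    coeff_add, coeff_zero] at hc2
  exact hc2

/-- **The doubling relations** and the vanishing of the words with few letters `b` or `c`. -/
structure DblS (R Q P : T3) : Prop extends Dbl R Q P where
  abc : Abc R Q P
  R1 : ∀ w : List (Fin 3), w.count 1 ≤ 2 → coeff R w = 0
  R2 : ∀ w : List (Fin 3), w.count 2 ≤ 1 → coeff R w = 0
  Q1 : ∀ w : List (Fin 3), w.count 1 ≤ 1 → coeff Q w = 0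
  Q2 : ∀ w : List (Fin 3), w.count 2 ≤ 1 → coeff Q w = 0
  P1 : ∀ w : List (Fin 3), w.count 1 ≤ 1 → coeff P w = 0
  P2 : ∀ w : List (Fin 3), w.count 2 ≤ 1 → coeff P w = 0

theorem p_dbl {φ : QX} (hφ : Good φ)
    (hR : ∀ w : List (Fin 3), (w.count 1 ≤ 1 ∨ w.count 2 ≤ 1) → coeff (Rw φ wR) w = 0) :
    DblS (Rw φ wR) (Rw φ wQ) (Rw φ wP) := by
  have hL : ∀ w, D_L (Rw φ w) := fun w => (p_clie (Fin 3) _ (p_lieR φ hφ w).1).2
  have hgR := hL wR
  have hgQ := hL wQ
  have hgP := hL wP
  have hforg := p_forg p_univ p_tau φ hφ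
  have abc := p_abc (p_coc p_univ p_tau p_lieR) p_lieR p_clie p_mov φ hφ hR
  have r34 := D_34 p_univ p_tau hφ hgR (fun w hw => hR w (Or.inr hw))
  have R2 : ∀ w : List (Fin 3), w.count 2 ≤ 1 → coeff (Rw φ wR) w = 0 :=
    fun w hw => hR w (Or.inr hw)
  have R1' : ∀ w : List (Fin 3), w.count 1 ≤ 1 → coeff (Rw φ wR) w = 0 :=
    fun w hw => hR w (Or.inl hw)
  have R1 : ∀ w : List (Fin 3), w.count 1 ≤ 2 → coeff (Rw φ wR) w = 0 := by
    intro w hw
    by_cases h : w.count 1 ≤ 1
    · exact R1' w h
    · refine D_two (b := 1) hgR ?_ w (by omega)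
      intro A B hA hB
      have h1 := r34 (A ++ 1 :: B)
      rw [D_dbl_one A B _ R1' hA hB] at h1
      rw [R1' (A ++ 1 :: B ++ [2])] at h1
      · linarith
      · simp [List.count_eq_zero_of_not_mem hA, List.count_eq_zero_of_not_mem hB]
  have Q1 : ∀ w : List (Fin 3), w.count 1 ≤ 1 → coeff (Rw φ wQ) w = 0 := by
    refine D_one (b := 1) (c := 2) (by decide) hgQ ?_ (hforg wQ wQ_inj 2)
    intro w hw
    rw [abc.b, R1, R1, sub_zero]
    · rw [List.count_cons_self]; omega
    · rw [List.count_cons_of_ne (by decide)]; omega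
  have P1 : ∀ w : List (Fin 3), w.count 1 ≤ 1 → coeff (Rw φ wP) w = 0 := by
    refine D_one (b := 1) (c := 2) (by decide) hgP ?_ (hforg wP wP_inj 2)
    intro w hw
    rw [abc.c, R1, R1]
    · simp
    · rw [List.count_cons_of_ne (by decide)]; omega
    · rw [List.count_cons_self]; omega
  have Q2 : ∀ w : List (Fin 3), w.count 2 ≤ 1 → coeff (Rw φ wQ) w = 0 := by
    refine D_onec (c := 2) hgQ ?_ (hforg wQ wQ_inj 2)
    intro w hw
    rw [abc.b, R2, R2, sub_zero]
    · rw [List.count_cons_of_ne (by decide), List.count_eq_zero_of_not_mem hw]; omega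
    · rw [List.count_cons_self, List.count_eq_zero_of_not_mem hw]
  have P2 : ∀ w : List (Fin 3), w.count 2 ≤ 1 → coeff (Rw φ wP) w = 0 := by
    refine D_onec (c := 2) hgP ?_ (hforg wP wP_inj 2)
    intro w hw
    rw [abc.c, R2, R2]
    · simp
    · rw [List.count_cons_of_ne (by decide), List.count_eq_zero_of_not_mem hw]; omega
    · rw [List.count_cons_of_ne (by decide), List.count_eq_zero_of_not_mem hw]; omega
  refine ⟨⟨r34, ?_, ?_, ?_⟩, abc, R1, R2, Q1, Q2, P1, P2⟩
  · -- (23)
    intro v
    have h := D_coc φ (D_t D_pi2) (v.map ![0, 1, 3] ++ [2])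
    rw [D_2T1 hφ, D_2T2 hφ, D_23T3 hφ hgQ, D_23T4 hφ hgQ, D_2T5 hφ, D_2T6 hφ,
      D_van D_H1 (u := v.map ![0, 1, 3] ++ [2]) (fun x hx => P1 x (by
        rw [List.map_append, List.map_map] at hx
        exact D_cnt1 v _ 1 _ (by decide) x hx)),
      D_van D_H2 (u := v.map ![0, 1, 3] ++ [2]) (fun x hx => P1 x (by
        rw [List.map_append, List.map_map] at hx
        exact D_cnt1 v _ 1 _ (by decide) x hx)),
      D_some D_H4 (Rw φ wQ) (u := v.map ![0, 1, 3] ++ [2]) (v := v ++ [2]) (by
        rw [List.map_append, List.map_map, List.map_append]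
        rw [D_map_id v _ (by decide)]
        rfl),
      D_van D_H5 (u := v.map ![0, 1, 3] ++ [2]) (fun x hx => Q2 x (by
        rw [List.map_append, List.map_map] at hx
        exact D_cnt1 v _ 2 _ (by decide) x hx))] at h
    linarith
  · -- (12)
    intro v
    have h := D_coc φ (D_t D_pi1) (v.map ![0, 2, 3] ++ [1])
    rw [D_12T1 hφ hgP, D_12T2 hφ hgP, D_12T3 hφ hgP, D_1T4 hφ, D_1T5 hφ, D_1T6 hφ,
      D_some D_H3 (Rw φ wP) (u := v.map ![0, 2, 3] ++ [1]) (v := v ++ [1]) (by
        rw [List.map_append, List.map_map, List.map_append]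
        rw [D_map_id v _ (by decide)]
        rfl),
      D_van D_H4 (u := v.map ![0, 2, 3] ++ [1]) (fun x hx => P1 x (by
        rw [List.map_append, List.map_map] at hx
        exact D_cnt1 v _ 1 _ (by decide) x hx)),
      D_van D_H5 (u := v.map ![0, 2, 3] ++ [1]) (fun x hx => P1 x (by
        rw [List.map_append, List.map_map] at hx
        exact D_cnt1 v _ 1 _ (by decide) x hx))] at h
    split_ifs at h ⊢ <;> linarith
  · -- (13)
    intro v
    have h := D_coc φ (D_t D_pi1) (v.map ![0, 1, 3] ++ [2])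
    rw [D_13T1 hφ hgQ, D_13T2 hφ hgQ, D_13T3 hφ hgQ, D_1T4 hφ, D_1T5 hφ, D_1T6 hφ,
      D_some D_H3 (Rw φ wP) (u := v.map ![0, 1, 3] ++ [2]) (v := v ++ [1]) (by
        rw [List.map_append, List.map_map, List.map_append]
        rw [D_map_id v _ (by decide)]
        rfl),
      D_some D_H4 (Rw φ wP) (u := v.map ![0, 1, 3] ++ [2]) (v := v ++ [2]) (by
        rw [List.map_append, List.map_map, List.map_append]
        rw [D_map_id v _ (by decide)]
        rfl),
      D_van D_H5 (u := v.map ![0, 1, 3] ++ [2]) (fun x hx => P2 x (by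
        rw [List.map_append, List.map_map] at hx
        exact D_cnt1 v _ 2 _ (by decide) x hx))] at h
    split_ifs at h ⊢ <;> linarith

end

end Pent
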