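import Pool.Agent.Lib.MP_a57f33_nt.PN.D.Comb
import Pool.Agent.Lib.MP_a57f33_nt.PN.P.SP

/-!
# Pentagon project (MP_a57f33_nt), doubling relations: Lie functions with exactly two letters `b`
-/

set_option autoImplicit false

namespace Pent

open Pool.Agent.MP_a57f33_nt
open Pool.Agent.MP_a57f33_nt.Cyc (shuffle sh sh_nil_left sh_nil_right sh_cons_cons)

section

variable {α : Type}

theorem D_sh_van {u v : List α} {f : List α → ℚ}
    (h : ∀ t : List α, t.Perm (u ++ v) → f t = 0) : sh u v f = 0 := by
  unfold sh
  apply List.sum_eq_zero
  intro x hx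
  obtain ⟨t, ht, rfl⟩ := List.mem_map.1 hx
  exact h t (SP_perm u v t ht)

variable [DecidableEq α]

theorem D_two_aux {g : List α → ℚ} {b : α} {n : ℕ}
    (h : ∀ (A T : List α), b ∉ A → b ∉ T → T.length < n → g (A ++ b :: (T ++ [b])) = 0) :
    ∀ (B : List α), b ∉ B → ∀ (A T : List α), b ∉ A → b ∉ T → B.length + T.length = n →
      sh (A ++ [b]) B (fun t => g (t ++ (T ++ [b]))) = 0 → g (A ++ b :: (B ++ (T ++ [b]))) = 0 := by
  intro B
  induction B using List.reverseRecOn with
  | nil =>
    intro hB A T hA hT hn h0
    rw [sh_nil_right] at h0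
    simpa using h0
  | append_singleton B y ih =>
    intro hB A T hA hT hn h0
    have hB' : b ∉ B := fun h => hB (by simp [h])
    have hy : b ≠ y := fun h => hB (by simp [h])
    rw [mov_snoc] at h0
    have h1 : sh A (B ++ [y]) (fun t => g ((t ++ [b]) ++ (T ++ [b]))) = 0 := by
      apply D_sh_van
      intro t ht
      have hbt : b ∉ t := by
        intro h2
        have h3 := ht.mem_iff.1 h2
        rcases List.mem_append.1 h3 with h3 | h3
        · exact hA h3
        · exact hB h3
      rw [List.append_assoc]
      simp only [List.length_append, List.length_cons, List.length_nil] at hn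
      exact h t T hbt hT (by omega)
    rw [h1, zero_add] at h0
    have h2 := ih hB' A (y :: T) hA (by simp [hT, hy]) (by
      simp only [List.length_append, List.length_cons, List.length_nil] at hn ⊢
      omega) (by simpa using h0)
    simpa using h2

/-- a Lie function that vanishes on the words `A b b B` vanishes on the words with exactly two
letters `b` -/
theorem D_two {g : List α → ℚ} {b : α}
    (hg : ∀ u v : List α, u ≠ [] → v ≠ [] → ((shuffle u v).map g).sum = 0)
    (h0 : ∀ A B : List α, b ∉ A → b ∉ B → g (A ++ b :: b :: B) = 0) :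
    ∀ w : List α, w.count b = 2 → g w = 0 := by
  have h1 : ∀ n : ℕ, ∀ (A T : List α), b ∉ A → b ∉ T → T.length < n →
      g (A ++ b :: (T ++ [b])) = 0 := by
    intro n
    induction n with
    | zero => intro A T _ _ h; omega
    | succ n ih =>
      intro A T hA hT hn
      by_cases h2 : T.length < n
      · exact ih A T hA hT h2
      · have h3 : T.length = n := by omega
        have h4 := D_two_aux (g := g) (b := b) (n := n) ih T hT A [] hA (by simp) (by simpa using h3)
        have h5 := mov_lie g hg T.reverse (A ++ [b]) b
        rw [List.reverse_reverse] at h5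
        have h6 : g (A ++ [b] ++ b :: T.reverse) = 0 := by
          have := h0 A T.reverse hA (by simpa using hT)
          simpa using this
        rw [h6] at h5
        have h7 : sh (A ++ [b]) T (fun t => g (t ++ [b])) = 0 := by
          have h8 : ((-1 : ℚ)) ^ T.reverse.length ≠ 0 := by simp
          exact (mul_eq_zero.1 h5.symm).resolve_left h8
        have h9 := h4 (by simpa using h7)
        simpa using h9
  have h2 : ∀ A B : List α, b ∉ A → b ∉ B → g (A ++ b :: (B ++ [b])) = 0 :=
    fun A B hA hB => h1 (B.length + 1) A B hA hB (by omega)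
  intro w hw
  obtain ⟨A, D, rfl, hA⟩ := List.eq_append_cons_of_mem (List.count_pos_iff.1 (by omega : 0 < w.count b))
  have hD : D.count b = 1 := by
    rw [List.count_append, List.count_cons_self, List.count_eq_zero_of_not_mem hA] at hw
    omega
  obtain ⟨B, C, rfl, hB⟩ := List.eq_append_cons_of_mem (List.count_pos_iff.1 (by omega : 0 < D.count b))
  have hC : b ∉ C := by
    rw [List.count_append, List.count_cons_self, List.count_eq_zero_of_not_mem hB] at hD
    exact List.count_eq_zero.1 (by omega)
  have h3 := mov_lie g hg C (A ++ b :: B) b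
  have h4 : sh (A ++ b :: B) C.reverse (fun t => g (t ++ [b])) = 0 := by
    apply D_sh_van
    intro t ht
    have h5 : t.count b = 1 := by
      rw [ht.count_eq]
      simp [List.count_eq_zero_of_not_mem hA, List.count_eq_zero_of_not_mem hB,
        List.count_eq_zero_of_not_mem hC]
    obtain ⟨A', B', rfl, hA'⟩ := List.eq_append_cons_of_mem
      (List.count_pos_iff.1 (by omega : 0 < t.count b))
    have hB' : b ∉ B' := by
      rw [List.count_append, List.count_cons_self, List.count_eq_zero_of_not_mem hA'] at h5
      exact List.count_eq_zero.1 (by omega)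
    have := h2 A' B' hA' hB'
    simpa using this
  rw [h4, mul_zero] at h3
  simpa using h3

/-- a Lie function that vanishes on words `w c` with at most one letter `b` in `w` and on words
without `c` vanishes on the words with at most one letter `b` -/
theorem D_one {g : List α → ℚ} {b c : α} (hbc : b ≠ c)
    (hg : ∀ u v : List α, u ≠ [] → v ≠ [] → ((shuffle u v).map g).sum = 0)
    (h0 : ∀ w : List α, w.count b ≤ 1 → g (w ++ [c]) = 0)
    (h1 : ∀ w : List α, c ∉ w → g w = 0) :
    ∀ w : List α, w.count b ≤ 1 → g w = 0 := by
  intro w hw
  by_cases hc : c ∈ w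
  · obtain ⟨A, B, rfl⟩ := List.append_of_mem hc
    rw [mov_lie g hg B A c, D_sh_van, mul_zero]
    intro t ht
    apply h0
    rw [ht.count_eq]
    rw [List.count_append, List.count_cons_of_ne hbc.symm] at hw
    rw [List.count_append, List.count_reverse]
    exact hw
  · exact h1 w hc

end

end Pent
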