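import Pool.Agent.Lib.MP_a57f33_nt.PN.D.Rel34
import Pool.Agent.Lib.MP_a57f33_nt.PN.D.Two
import Pool.Agent.Lib.MP_a57f33_nt.PN.P.univ
import Pool.Agent.Lib.MP_a57f33_nt.PN.P.tau
import Pool.Agent.Lib.MP_a57f33_nt.PN.P.lieR
import Pool.Agent.Lib.MP_a57f33_nt.PN.P.forg
import Pool.Agent.Lib.MP_a57f33_nt.PN.P.abc
import Pool.Agent.Lib.MP_a57f33_nt.PN.Glue1

/-!
# Pentagon project (MP_a57f33_nt): the doubling relations

`Dbl R Q P` : the relations (34), (23), (12), (13), the parts of the cocycle identity that are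
linear in one chord. `dbl g v` is the sum of `g` over the words in which one letter of `v` is
doubled. `p_dbl` : they hold for `R = Rw φ wR`, `Q = Rw φ wQ`, `P = Rw φ wP`.
-/

set_option autoImplicit false

namespace Pent

open Pool.Agent.MP_a57f33_nt
open Pool.Agent.MP_a57f33_nt.Cyc (shuffle)

noncomputable section

/-- the relations (34), (23), (12), (13) -/
structure Dbl (R Q P : T3) : Prop where
  r34 : ∀ v : List (Fin 3), dbl (coeff R) v + coeff R (v ++ [2]) = 0
  r23 : ∀ v : List (Fin 3), dbl (coeff Q) v + coeff Q (v ++ [2]) + coeff Q (1 :: v) = 0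
  r12 : ∀ v : List (Fin 3), dbl (coeff P) v + coeff P (v ++ [1])
    + (if 0 ∈ v then coeff P (0 :: v) else 0) = 0
  r13 : ∀ v : List (Fin 3), coeff P (v ++ [1]) - coeff P (v ++ [2])
    = coeff Q (1 :: v) - (if 0 ∈ v then coeff Q (0 :: v) else 0)

/-- `f` is a Lie function -/
def D_L (f : T3) : Prop := ∀ u v : List (Fin 3), u ≠ [] → v ≠ [] →
  ((shuffle u v).map (coeff f)).sum = 0

theorem D_end {f : T3} (hf : D_L f) (w : List (Fin 3)) (x : Fin 3) :
    (-1) ^ w.length * coeff f (w.reverse ++ [x]) = coeff f (x :: w) := by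
  have h5 := (p_mov (Fin 3) (coeff f) hf).2.2 (x :: w) (List.cons_ne_nil _ _)
  rw [List.reverse_cons] at h5
  rw [h5, List.length_cons, ← mul_assoc, ← pow_add,
    Even.neg_one_pow ⟨w.length + 1, by ring⟩, one_mul]

theorem D_prod1 (v : List (Fin 3)) : (v.map (![1, 1, 1] : Fin 3 → ℚ)).prod = 1 := by
  induction v with
  | nil => rfl
  | cons a v ih =>
    rw [List.map_cons, List.prod_cons, ih]
    fin_cases a <;> simp

theorem D_prod0 (v : List (Fin 3)) : (v.map (![0, 1, 1] : Fin 3 → ℚ)).prod =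
    if 0 ∈ v then 0 else 1 := by
  induction v with
  | nil => simp
  | cons a v ih =>
    rw [List.map_cons, List.prod_cons, ih]
    fin_cases a <;> simp

theorem D_A1 {f : T3} (hf : D_L f) (v : List (Fin 3)) {c : ℚ}
    (h : c = (-1) ^ v.length * (v.map (![0, 1, 1] : Fin 3 → ℚ)).prod *
      ∑ k, (![1, 0, 0] : Fin 3 → ℚ) k * coeff f (v.reverse ++ [k])) :
    c = if 0 ∈ v then 0 else coeff f (0 :: v) := by
  rw [h, D_prod0, ← D_end hf, Fin.sum_univ_three]
  simp only [Matrix.cons_val]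
  split_ifs <;> ring

theorem D_A2 {f : T3} (hf : D_L f) (v : List (Fin 3)) {c : ℚ}
    (h : c = (-1) ^ v.length * (v.map (![1, 1, 1] : Fin 3 → ℚ)).prod *
      ∑ k, (![1, 0, 0] : Fin 3 → ℚ) k * coeff f (v.reverse ++ [k])) :
    c = coeff f (0 :: v) := by
  rw [h, D_prod1, ← D_end hf, Fin.sum_univ_three]
  simp only [Matrix.cons_val]
  ring

theorem D_A3 {f : T3} (hf : D_L f) (v : List (Fin 3)) {c : ℚ}
    (h : c = (-1) ^ v.length * (v.map (![1, 1, 1] : Fin 3 → ℚ)).prod *
      ∑ k, (![0, 1, 0] : Fin 3 → ℚ) k * coeff f (v.reverse ++ [k])) :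
    c = coeff f (1 :: v) := by
  rw [h, D_prod1, ← D_end hf, Fin.sum_univ_three]
  simp only [Matrix.cons_val]
  ring

section terms

variable {φ : QX}

/-! ### fibre of the strand `1` -/

theorem D_b1 : Braid (D_t D_pi1) := D_t_braid p_tau D_pi1_inj
theorem D_b2 : Braid (D_t D_pi2) := D_t_braid p_tau D_pi2_inj

theorem D_1T4 (hφ : Good φ) :
    coc_D φ (D_t D_pi1) ![{some 0}, {some 1}, {some 2, some 3}, {none}] 1 =
      FreeAlgebra.lift ℚ ![yl 0, yl 1 + yl 2, yl 3] (Rw φ wP) := by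
  refine D_sub p_univ hφ wP_inj D_b1 (coc_S {some 0} {some 2, some 3} {none} {some 1})
    (by decide) _ (by decide) _ ?_
  intro i
  fin_cases i
  · simp only [coc_mg, coc_S, Matrix.cons_val, Fin.zero_eta, Finset.sum_singleton, D_t, D_pi1,
      D_tau_none]
  · simp only [coc_mg, coc_S, Matrix.cons_val, Fin.mk_one, Finset.sum_singleton, D_t, D_pi1,
      D_tau_none, D_s23, coc_mulLeft_add]
  · simp only [coc_mg, coc_S, Matrix.cons_val, Fin.reduceFinMk, Finset.sum_singleton, D_t, D_pi1,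
      D_tau_none]

theorem D_1T5 (hφ : Good φ) :
    coc_D φ (D_t D_pi1) ![{some 0}, {some 1}, {some 2}, {some 3, none}] 1 =
      FreeAlgebra.lift ℚ ![yl 0, yl 1, yl 2 + yl 3] (Rw φ wP) := by
  refine D_sub p_univ hφ wP_inj D_b1 (coc_S {some 0} {some 2} {some 3, none} {some 1})
    (by decide) _ (by decide) _ ?_
  intro i
  fin_cases i
  · simp only [coc_mg, coc_S, Matrix.cons_val, Fin.zero_eta, Finset.sum_singleton, D_t, D_pi1,
      D_tau_none]
  · simp only [coc_mg, coc_S, Matrix.cons_val, Fin.mk_one, Finset.sum_singleton, D_t, D_pi1,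
      D_tau_none]
  · simp only [coc_mg, coc_S, Matrix.cons_val, Fin.reduceFinMk, Finset.sum_singleton, D_t, D_pi1,
      D_tau_none, D_s3n, coc_mulLeft_add]

theorem D_1T6 (hφ : Good φ) :
    coc_D φ (D_t D_pi1) ![{some 0}, {some 1}, {some 2}, {some 3}] 1 =
      FreeAlgebra.lift ℚ ![yl 0, yl 1, yl 2] (Rw φ wP) := by
  refine D_sub p_univ hφ wP_inj D_b1 (coc_S {some 0} {some 2} {some 3} {some 1})
    (by decide) _ (by decide) _ ?_
  intro i
  fin_cases i
  · simp only [coc_mg, coc_S, Matrix.cons_val, Fin.zero_eta, Finset.sum_singleton, D_t, D_pi1,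
      D_tau_none]
  · simp only [coc_mg, coc_S, Matrix.cons_val, Fin.mk_one, Finset.sum_singleton, D_t, D_pi1,
      D_tau_none]
  · simp only [coc_mg, coc_S, Matrix.cons_val, Fin.reduceFinMk, Finset.sum_singleton, D_t, D_pi1,
      D_tau_none]

theorem D_12T1 (hφ : Good φ) (hP : D_L (Rw φ wP)) (v : List (Fin 3)) :
    coeff (coc_D φ (D_t D_pi1) ![{some 1}, {some 2}, {some 3}, {none}] 1)
      (v.map ![0, 2, 3] ++ [1]) = if 0 ∈ v then 0 else coeff (Rw φ wP) (0 :: v) := by
  apply D_A1 hP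
  refine D_A p_univ hφ wP_inj D_b1 (coc_S {some 1} {some 3} {none} {some 2})
    (by decide) _ (by decide) (p := 1) (σ := ![0, 2, 3]) (by decide) (by decide) _ _ ?_ v
  intro i
  fin_cases i
  · simp only [coc_mg, coc_S, Matrix.cons_val, Fin.zero_eta, Finset.sum_singleton, D_t, D_pi1,
      D_none_tau, zero_smul, one_smul, zero_add]
  · simp only [coc_mg, coc_S, Matrix.cons_val, Fin.mk_one, Finset.sum_singleton, D_t, D_pi1,
      zero_smul, one_smul, add_zero]
  · simp only [coc_mg, coc_S, Matrix.cons_val, Fin.reduceFinMk, Finset.sum_singleton, D_t, D_pi1,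
      zero_smul, one_smul, add_zero]

theorem D_12T2 (hφ : Good φ) (hP : D_L (Rw φ wP)) (v : List (Fin 3)) :
    coeff (coc_D φ (D_t D_pi1) ![{some 0, some 1}, {some 2}, {some 3}, {none}] 1)
      (v.map ![0, 2, 3] ++ [1]) = coeff (Rw φ wP) (0 :: v) := by
  apply D_A2 hP
  refine D_A p_univ hφ wP_inj D_b1 (coc_S {some 0, some 1} {some 3} {none} {some 2})
    (by decide) _ (by decide) (p := 1) (σ := ![0, 2, 3]) (by decide) (by decide) _ _ ?_ v
  intro i
  fin_cases i
  · simp only [coc_mg, coc_S, Matrix.cons_val, Fin.zero_eta, Finset.sum_singleton, D_t, D_pi1,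
      D_none_tau, one_smul, D_s01]
  · simp only [coc_mg, coc_S, Matrix.cons_val, Fin.mk_one, Finset.sum_singleton, D_t, D_pi1,
      zero_smul, one_smul, add_zero]
  · simp only [coc_mg, coc_S, Matrix.cons_val, Fin.reduceFinMk, Finset.sum_singleton, D_t, D_pi1,
      zero_smul, one_smul, add_zero]

theorem D_12T3 (hφ : Good φ) (hP : D_L (Rw φ wP)) (v : List (Fin 3)) :
    coeff (coc_D φ (D_t D_pi1) ![{some 0}, {some 1, some 2}, {some 3}, {none}] 1)
      (v.map ![0, 2, 3] ++ [1]) = - dbl (coeff (Rw φ wP)) v := by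
  rw [← D_K_lie hP]
  refine D_B p_univ hφ wP_inj D_b1 (coc_S {some 0} {some 3} {none} {some 1, some 2})
    (by decide) _ (by decide) (p := 1) (σ := ![0, 2, 3]) (by decide) (by decide) ?_ v
  intro i
  fin_cases i
  · simp only [coc_mg, coc_S, Matrix.cons_val, Fin.zero_eta, Finset.sum_singleton, D_t, D_pi1,
      D_tau_none, D_s12]
  · simp only [coc_mg, coc_S, Matrix.cons_val, Fin.mk_one, Finset.sum_singleton, D_t, D_pi1,
      D_tau_none, D_s12]
  · simp only [coc_mg, coc_S, Matrix.cons_val, Fin.reduceFinMk, Finset.sum_singleton, D_t, D_pi1,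
      D_tau_none, D_s12]

theorem D_13T1 (hφ : Good φ) (hQ : D_L (Rw φ wQ)) (v : List (Fin 3)) :
    coeff (coc_D φ (D_t D_pi1) ![{some 1}, {some 2}, {some 3}, {none}] 1)
      (v.map ![0, 1, 3] ++ [2]) = if 0 ∈ v then 0 else coeff (Rw φ wQ) (0 :: v) := by
  apply D_A1 hQ
  refine D_A p_univ hφ wQ_inj D_b1 (coc_S {some 1} {some 2} {none} {some 3})
    (by decide) _ (by decide) (p := 2) (σ := ![0, 1, 3]) (by decide) (by decide) _ _ ?_ v
  intro i
  fin_cases i
  · simp only [coc_mg, coc_S, Matrix.cons_val, Fin.zero_eta, Finset.sum_singleton, D_t, D_pi1,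
      D_none_tau, zero_smul, one_smul, zero_add]
  · simp only [coc_mg, coc_S, Matrix.cons_val, Fin.mk_one, Finset.sum_singleton, D_t, D_pi1,
      zero_smul, one_smul, add_zero]
  · simp only [coc_mg, coc_S, Matrix.cons_val, Fin.reduceFinMk, Finset.sum_singleton, D_t, D_pi1,
      zero_smul, one_smul, add_zero]

theorem D_13T2 (hφ : Good φ) (hQ : D_L (Rw φ wQ)) (v : List (Fin 3)) :
    coeff (coc_D φ (D_t D_pi1) ![{some 0, some 1}, {some 2}, {some 3}, {none}] 1)
      (v.map ![0, 1, 3] ++ [2]) = coeff (Rw φ wQ) (0 :: v) := by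
  apply D_A2 hQ
  refine D_A p_univ hφ wQ_inj D_b1 (coc_S {some 0, some 1} {some 2} {none} {some 3})
    (by decide) _ (by decide) (p := 2) (σ := ![0, 1, 3]) (by decide) (by decide) _ _ ?_ v
  intro i
  fin_cases i
  · simp only [coc_mg, coc_S, Matrix.cons_val, Fin.zero_eta, Finset.sum_singleton, D_t, D_pi1,
      D_none_tau, one_smul, D_s01]
  · simp only [coc_mg, coc_S, Matrix.cons_val, Fin.mk_one, Finset.sum_singleton, D_t, D_pi1,
      zero_smul, one_smul, add_zero]
  · simp only [coc_mg, coc_S, Matrix.cons_val, Fin.reduceFinMk, Finset.sum_singleton, D_t, D_pi1,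
      zero_smul, one_smul, add_zero]

theorem D_13T3 (hφ : Good φ) (hQ : D_L (Rw φ wQ)) (v : List (Fin 3)) :
    coeff (coc_D φ (D_t D_pi1) ![{some 0}, {some 1, some 2}, {some 3}, {none}] 1)
      (v.map ![0, 1, 3] ++ [2]) = coeff (Rw φ wQ) (1 :: v) := by
  apply D_A3 hQ
  refine D_A p_univ hφ wQ_inj D_b1 (coc_S {some 0} {some 1, some 2} {none} {some 3})
    (by decide) _ (by decide) (p := 2) (σ := ![0, 1, 3]) (by decide) (by decide) _ _ ?_ v
  intro i
  fin_cases i
  · simp only [coc_mg, coc_S, Matrix.cons_val, Fin.zero_eta, Finset.sum_singleton, D_t, D_pi1,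
      zero_smul, one_smul, add_zero]
  · simp only [coc_mg, coc_S, Matrix.cons_val, Fin.mk_one, Finset.sum_singleton, D_t, D_pi1,
      D_none_tau, one_smul, D_s12]
    exact add_comm _ _
  · simp only [coc_mg, coc_S, Matrix.cons_val, Fin.reduceFinMk, Finset.sum_singleton, D_t, D_pi1,
      zero_smul, one_smul, add_zero]

/-! ### fibre of the strand `2` -/

theorem D_2T1 (hφ : Good φ) :
    coc_D φ (D_t D_pi2) ![{some 1}, {some 2}, {some 3}, {none}] 1 =
      FreeAlgebra.lift ℚ ![yl 1, yl 2, yl 3] (Rw φ wP) := by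
  refine D_sub p_univ hφ wP_inj D_b2 (coc_S {some 1} {some 3} {none} {some 2})
    (by decide) _ (by decide) _ ?_
  intro i
  fin_cases i
  · simp only [coc_mg, coc_S, Matrix.cons_val, Fin.zero_eta, Finset.sum_singleton, D_t, D_pi2,
      D_tau_none]
  · simp only [coc_mg, coc_S, Matrix.cons_val, Fin.mk_one, Finset.sum_singleton, D_t, D_pi2,
      D_tau_none]
  · simp only [coc_mg, coc_S, Matrix.cons_val, Fin.reduceFinMk, Finset.sum_singleton, D_t, D_pi2,
      D_tau_none]

theorem D_2T2 (hφ : Good φ) :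
    coc_D φ (D_t D_pi2) ![{some 0, some 1}, {some 2}, {some 3}, {none}] 1 =
      FreeAlgebra.lift ℚ ![yl 0 + yl 1, yl 2, yl 3] (Rw φ wP) := by
  refine D_sub p_univ hφ wP_inj D_b2 (coc_S {some 0, some 1} {some 3} {none} {some 2})
    (by decide) _ (by decide) _ ?_
  intro i
  fin_cases i
  · simp only [coc_mg, coc_S, Matrix.cons_val, Fin.zero_eta, Finset.sum_singleton, D_t, D_pi2,
      D_tau_none, D_s01, coc_mulLeft_add]
  · simp only [coc_mg, coc_S, Matrix.cons_val, Fin.mk_one, Finset.sum_singleton, D_t, D_pi2,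
      D_tau_none]
  · simp only [coc_mg, coc_S, Matrix.cons_val, Fin.reduceFinMk, Finset.sum_singleton, D_t, D_pi2,
      D_tau_none]

theorem D_23T3 (hφ : Good φ) (hQ : D_L (Rw φ wQ)) (v : List (Fin 3)) :
    coeff (coc_D φ (D_t D_pi2) ![{some 0}, {some 1, some 2}, {some 3}, {none}] 1)
      (v.map ![0, 1, 3] ++ [2]) = coeff (Rw φ wQ) (1 :: v) := by
  apply D_A3 hQ
  refine D_A p_univ hφ wQ_inj D_b2 (coc_S {some 0} {some 1, some 2} {none} {some 3})
    (by decide) _ (by decide) (p := 2) (σ := ![0, 1, 3]) (by decide) (by decide) _ _ ?_ v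
  intro i
  fin_cases i
  · simp only [coc_mg, coc_S, Matrix.cons_val, Fin.zero_eta, Finset.sum_singleton, D_t, D_pi2,
      zero_smul, one_smul, add_zero]
  · simp only [coc_mg, coc_S, Matrix.cons_val, Fin.mk_one, Finset.sum_singleton, D_t, D_pi2,
      D_none_tau, one_smul, D_s12]
  · simp only [coc_mg, coc_S, Matrix.cons_val, Fin.reduceFinMk, Finset.sum_singleton, D_t, D_pi2,
      zero_smul, one_smul, add_zero]

theorem D_23T4 (hφ : Good φ) (hQ : D_L (Rw φ wQ)) (v : List (Fin 3)) :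
    coeff (coc_D φ (D_t D_pi2) ![{some 0}, {some 1}, {some 2, some 3}, {none}] 1)
      (v.map ![0, 1, 3] ++ [2]) = - dbl (coeff (Rw φ wQ)) v := by
  rw [← D_K_lie hQ]
  refine D_B p_univ hφ wQ_inj D_b2 (coc_S {some 0} {some 1} {none} {some 2, some 3})
    (by decide) _ (by decide) (p := 2) (σ := ![0, 1, 3]) (by decide) (by decide) ?_ v
  intro i
  fin_cases i
  · simp only [coc_mg, coc_S, Matrix.cons_val, Fin.zero_eta, Finset.sum_singleton, D_t, D_pi2,
      D_tau_none, D_s23]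
  · simp only [coc_mg, coc_S, Matrix.cons_val, Fin.mk_one, Finset.sum_singleton, D_t, D_pi2,
      D_tau_none, D_s23]
  · simp only [coc_mg, coc_S, Matrix.cons_val, Fin.reduceFinMk, Finset.sum_singleton, D_t, D_pi2,
      D_tau_none, D_s23]

theorem D_2T5 (hφ : Good φ) :
    coc_D φ (D_t D_pi2) ![{some 0}, {some 1}, {some 2}, {some 3, none}] 1 =
      FreeAlgebra.lift ℚ ![yl 0, yl 1, yl 2 + yl 3] (Rw φ wQ) := by
  refine D_sub p_univ hφ wQ_inj D_b2 (coc_S {some 0} {some 1} {some 3, none} {some 2})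
    (by decide) _ (by decide) _ ?_
  intro i
  fin_cases i
  · simp only [coc_mg, coc_S, Matrix.cons_val, Fin.zero_eta, Finset.sum_singleton, D_t, D_pi2,
      D_tau_none]
  · simp only [coc_mg, coc_S, Matrix.cons_val, Fin.mk_one, Finset.sum_singleton, D_t, D_pi2,
      D_tau_none]
  · simp only [coc_mg, coc_S, Matrix.cons_val, Fin.reduceFinMk, Finset.sum_singleton, D_t, D_pi2,
      D_tau_none, D_s3n, coc_mulLeft_add]

theorem D_2T6 (hφ : Good φ) :
    coc_D φ (D_t D_pi2) ![{some 0}, {some 1}, {some 2}, {some 3}] 1 =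
      FreeAlgebra.lift ℚ ![yl 0, yl 1, yl 2] (Rw φ wQ) := by
  refine D_sub p_univ hφ wQ_inj D_b2 (coc_S {some 0} {some 1} {some 3} {some 2})
    (by decide) _ (by decide) _ ?_
  intro i
  fin_cases i
  · simp only [coc_mg, coc_S, Matrix.cons_val, Fin.zero_eta, Finset.sum_singleton, D_t, D_pi2,
      D_tau_none]
  · simp only [coc_mg, coc_S, Matrix.cons_val, Fin.mk_one, Finset.sum_singleton, D_t, D_pi2,
      D_tau_none]
  · simp only [coc_mg, coc_S, Matrix.cons_val, Fin.reduceFinMk, Finset.sum_singleton, D_t, D_pi2,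
      D_tau_none]

end terms

end

end Pent
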