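import Pool.Agent.Lib.MP_a57f33_nt.PN.D.Term

/-!
# Pentagon project (MP_a57f33_nt), doubling relations: the part of the cocycle identity linear in
the chord of the last two strands
-/

set_option autoImplicit false

namespace Pent

open Pool.Agent.MP_a57f33_nt
open Pool.Agent.MP_a57f33_nt.Cyc (shuffle)

noncomputable section

theorem D_coeff_neg (f : T4) (w : List (Fin 4)) : coeff (-f) w = - coeff f w := by
  rw [← zero_sub, coeff_sub, coeff_zero, zero_sub]

theorem D_map_id (w : List (Fin 3)) (τ : Fin 3 → Option (Fin 3))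
    (h : ∀ a, τ a = some a) : w.map τ = w.map some :=
  List.map_congr_left fun a _ => h a

/-- a letter which is not a value of `τ` occurs at most once in `w.map τ ++ [k]` -/
theorem D_cnt {β : Type} [BEq β] [LawfulBEq β] (w : List (Fin 3)) (τ : Fin 3 → β) (x k : β)
    (h : ∀ a, τ a ≠ x) : (w.map τ ++ [k]).count x ≤ 1 := by
  rw [List.count_append, List.count_eq_zero_of_not_mem]
  · rw [zero_add, List.count_singleton]
    split_ifs <;> omega
  · intro hx
    rw [List.mem_map] at hx
    obtain ⟨a, -, ha⟩ := hx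
    exact h a ha

theorem D_cnt1 (w : List (Fin 3)) (τ : Fin 3 → Option (Fin 3)) (x : Fin 3) (k : Option (Fin 3))
    (h : ∀ a, τ a ≠ some x) (v : List (Fin 3)) (hv : w.map τ ++ [k] = v.map some) :
    v.count x ≤ 1 := by
  rw [← D_count, ← hv]
  exact D_cnt w τ (some x) k h

theorem D_H1 : D_H ![none, some 0, some 1, some 2] ![yl 1, yl 2, yl 3] where
  nil a q := by
    fin_cases a <;> simp [yl, coeff_iota_mul_nil]
  cons a q b u := by
    fin_cases a <;> fin_cases b <;> simp [yl, coeff_iota_mul_cons]

theorem D_H2 :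
    D_H ![some 0, some 0, some 1, some 2] ![yl 0 + yl 1, yl 2, yl 3] where
  nil a q := by
    fin_cases a <;> simp [yl, coeff_iota_mul_nil, add_mul, coeff_add]
  cons a q b u := by
    fin_cases a <;> fin_cases b <;> simp [yl, coeff_iota_mul_cons, add_mul, coeff_add]

theorem D_H3 :
    D_H ![some 0, some 1, some 1, some 2] ![yl 0, yl 1 + yl 2, yl 3] where
  nil a q := by
    fin_cases a <;> simp [yl, coeff_iota_mul_nil, add_mul, coeff_add]
  cons a q b u := by
    fin_cases a <;> fin_cases b <;> simp [yl, coeff_iota_mul_cons, add_mul, coeff_add]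

theorem D_H4 :
    D_H ![some 0, some 1, some 2, some 2] ![yl 0, yl 1, yl 2 + yl 3] where
  nil a q := by
    fin_cases a <;> simp [yl, coeff_iota_mul_nil, add_mul, coeff_add]
  cons a q b u := by
    fin_cases a <;> fin_cases b <;> simp [yl, coeff_iota_mul_cons, add_mul, coeff_add]

theorem D_H5 :
    D_H ![some 0, some 1, some 2, none] ![yl 0, yl 1, yl 2] where
  nil a q := by
    fin_cases a <;> simp [yl, coeff_iota_mul_nil]
  cons a q b u := by
    fin_cases a <;> fin_cases b <;> simp [yl, coeff_iota_mul_cons]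

/-- **Relation (34).** -/
theorem D_34 (h1 : S_univ.{0}) (h2 : S_tau) {φ : QX} (hφ : Good φ)
    (hg : ∀ u v : List (Fin 3), u ≠ [] → v ≠ [] →
      ((shuffle u v).map (coeff (Rw φ wR))).sum = 0)
    (hR : ∀ w : List (Fin 3), w.count 2 ≤ 1 → coeff (Rw φ wR) w = 0) (v : List (Fin 3)) :
    dbl (coeff (Rw φ wR)) v + coeff (Rw φ wR) (v ++ [2]) = 0 := by
  have hB : coeff (coc_O φ 1) (v.map ![0, 1, 2] ++ [3]) = D_K (coeff (Rw φ wR)) v := by
    refine D_B h1 hφ (w := wR) (by decide) (h2 (Fin 4))
      (coc_S {some 0} {some 1} {some 2} {some 3, none}) (by decide) _ (by decide)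
      (p := 3) (σ := ![0, 1, 2]) (by decide) (by decide) ?_ v
    intro i
    fin_cases i
    · simp only [coc_mg, coc_S, Matrix.cons_val, Fin.zero_eta, D_s3n, Finset.sum_singleton,
        D_tau_none]
      exact add_comm _ _
    · simp only [coc_mg, coc_S, Matrix.cons_val, Fin.mk_one, D_s3n, Finset.sum_singleton,
        D_tau_none]
      exact add_comm _ _
    · simp only [coc_mg, coc_S, Matrix.cons_val, Fin.reduceFinMk, D_s3n, Finset.sum_singleton,
        D_tau_none]
      exact add_comm _ _
  rw [D_K_lie hg, coc_main h1 h2 hφ] at hB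
  simp only [sub3, coeff_add, coeff_sub, D_coeff_neg] at hB
  rw [D_van D_H1 (u := v.map ![0, 1, 2] ++ [3]) (fun x hx => hR x (by
      rw [List.map_append, List.map_map] at hx
      exact D_cnt1 v _ 2 _ (by decide) x hx)),
    D_van D_H2 (u := v.map ![0, 1, 2] ++ [3]) (fun x hx => hR x (by
      rw [List.map_append, List.map_map] at hx
      exact D_cnt1 v _ 2 _ (by decide) x hx)),
    D_van D_H3 (u := v.map ![0, 1, 2] ++ [3]) (fun x hx => hR x (by
      rw [List.map_append, List.map_map] at hx
      exact D_cnt1 v _ 2 _ (by decide) x hx)),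
    D_some D_H4 (Rw φ wR) (u := v.map ![0, 1, 2] ++ [3]) (v := v ++ [2]) (by
      rw [List.map_append, List.map_map, List.map_append]
      rw [D_map_id v _ (by decide)]
      rfl)] at hB
  linarith

end

end Pent
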