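import Pool.Agent.Lib.MP_a57f33_nt.PN.P.coc
import Pool.Agent.Lib.MP_a57f33_nt.PN.D.Comb

/-!
# Pentagon project (MP_a57f33_nt), doubling relations: coefficients of the terms of the cocycle
identity

`D_ruleA` : a last strand `p` which is in a block of its own (general scalars);
`D_ruleB` : the last block contains the special strand `p` and the fibre strand (doubling);
`D_some`, `D_none` : substitutions.
-/

set_option autoImplicit false

namespace Pent

open Pool.Agent.MP_a57f33_nt
open Pool.Agent.MP_a57f33_nt.Cyc (shuffle sh sh_nil_left sh_nil_right sh_cons_cons)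

noncomputable section

section ruleA

variable {p : Fin 4} {σ : Fin 3 → Fin 4} {X : Fin 3 → Module.End ℚ T4}
  {d : Fin 3 → Module.End ℚ T4} {e f : Fin 3 → ℚ}

theorem D_lift_nil (X : Fin 3 → Module.End ℚ T4) :
    (FreeAlgebra.lift ℚ X (word ([] : List (Fin 3)))) 1 = 1 := by
  have e : (FreeAlgebra.lift ℚ X) (1 : T3) = 1 := map_one _
  rw [word_nil, e]; rfl

theorem D_lift_cons (X : Fin 3 → Module.End ℚ T4) (i : Fin 3) (u : List (Fin 3)) :
    (FreeAlgebra.lift ℚ X (word (i :: u))) 1 = X i ((FreeAlgebra.lift ℚ X (word u)) 1) := by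
  rw [word_cons, map_mul, FreeAlgebra.lift_ι_apply]
  rfl

theorem D_ruleA (hσ : Function.Injective σ) (hp : ∀ i, σ i ≠ p) (hd : ∀ i, IsD p (σ i) (d i))
    (hX : ∀ i, X i = e i • d i + f i • LinearMap.mulLeft ℚ (yl p))
    (F : T3) (w : List (Fin 3)) :
    coeff ((FreeAlgebra.lift ℚ X F) 1) (w.map σ ++ [p]) =
      (-1) ^ w.length * (w.map e).prod * ∑ k, f k * coeff F (w.reverse ++ [k]) := by
  have hstep : ∀ (i : Fin 3) (g : T4) (v : List (Fin 4)), coeff (X i g) v =
      e i * coeff (d i g) v + f i * coeff (yl p * g) v := by
    intro i g v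
    rw [hX, LinearMap.add_apply, LinearMap.smul_apply, LinearMap.smul_apply, coeff_add,
      coeff_smul, coeff_smul, LinearMap.mulLeft_apply]
  have c1 : ∀ (u : List (Fin 3)) (v : List (Fin 4)), p ∉ v →
      coeff ((FreeAlgebra.lift ℚ X (word u)) 1) v = if u = [] ∧ v = [] then 1 else 0 := by
    intro u v hv
    cases u with
    | nil =>
      rw [D_lift_nil, coc_coeff_one]
      simp
    | cons i u =>
      rw [D_lift_cons, hstep, coc_B (hd i) _ v hv, yl, coc_iota_mul_nc hv]
      simp
  have c2 : ∀ (u w : List (Fin 3)), coeff ((FreeAlgebra.lift ℚ X (word u)) 1) (w.map σ ++ [p]) =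
      (-1) ^ w.length * (w.map e).prod *
        ∑ k, f k * (if u = w.reverse ++ [k] then (1 : ℚ) else 0) := by
    intro u
    induction u with
    | nil =>
      intro w
      rw [D_lift_nil, coc_coeff_one]
      simp
    | cons i u ih =>
      intro w
      rw [D_lift_cons, hstep]
      rcases List.eq_nil_or_concat' w with rfl | ⟨w, k, rfl⟩
      · simp only [List.map_nil, List.nil_append, List.reverse_nil, List.length_nil, pow_zero]
        rw [coc_A0 (hd i), yl, coeff_iota_mul_cons, if_pos rfl, c1 u [] (by simp)]
        simp only [List.prod_nil, List.cons.injEq]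
        rw [Finset.sum_eq_single i]
        · simp
        · intro b _ hb
          rw [if_neg (fun h => hb h.1.symm), mul_zero]
        · intro h; exact absurd (Finset.mem_univ _) h
      · have e1 : (w ++ [k]).map σ ++ [p] = w.map σ ++ [σ k] ++ [p] := by simp
        rw [e1, coc_A1 (hd i) _ _ _ (coc_pσ hp) (hp k)]
        have h3 : coeff (yl p * (FreeAlgebra.lift ℚ X (word u)) 1)
            (w.map σ ++ [σ k] ++ [p]) = 0 := by
          cases w with
          | nil =>
            simp only [List.map_nil, List.nil_append, List.cons_append, yl]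
            rw [coeff_iota_mul_cons, if_neg (hp k)]
          | cons a w =>
            simp only [List.map_cons, List.cons_append, yl]
            rw [coeff_iota_mul_cons, if_neg (hp a)]
        rw [h3, mul_zero, add_zero, ih w, c1 u _ (by
          intro h
          rcases List.mem_append.mp h with h | h
          · exact coc_pσ hp h
          · exact hp i (List.mem_singleton.mp h).symm)]
        have h4 : ¬ (u = [] ∧ w.map σ ++ [σ i] = []) := by simp
        rw [if_neg h4]
        have h5 : ∀ j : Fin 3, (w ++ [k]).reverse ++ [j] = k :: (w.reverse ++ [j]) := by simp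
        simp only [h5]
        by_cases hk : k = i
        · subst hk
          simp only [if_true, List.cons.injEq, true_and, List.length_append, List.length_cons,
            List.length_nil, zero_add, pow_succ, List.map_append, List.map_cons, List.map_nil,
            List.prod_append, List.prod_cons, List.prod_nil]
          ring
        · have h6 : ¬ σ k = σ i := fun h => hk (hσ h)
          rw [if_neg h6]
          have h7 : ∀ j : Fin 3, ¬ (i :: u = k :: (w.reverse ++ [j])) :=
            fun j h => hk (List.cons.inj h).1.symm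
          simp [h7]
  let ev1 : Module.End ℚ T4 →ₗ[ℚ] T4 := LinearMap.applyₗ (1 : T4)
  have key : (coeffL (w.map σ ++ [p])).comp (ev1.comp (FreeAlgebra.lift ℚ X).toLinearMap) =
      ((-1 : ℚ) ^ w.length * (w.map e).prod) • ∑ k, f k • coeffL (w.reverse ++ [k]) := by
    apply linear_ext
    intro u
    simp only [LinearMap.comp_apply, coeffL_apply, LinearMap.smul_apply, smul_eq_mul,
      AlgHom.toLinearMap_apply, coeff_word, LinearMap.sum_apply]
    change coeff ((FreeAlgebra.lift ℚ X (word u)) 1) (w.map σ ++ [p]) = _
    rw [c2]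
  have h3 := LinearMap.congr_fun key F
  simp only [LinearMap.comp_apply, coeffL_apply, LinearMap.smul_apply, smul_eq_mul,
      AlgHom.toLinearMap_apply, LinearMap.sum_apply] at h3
  exact h3

theorem D_word_cn (i : Fin 3) (u : List (Fin 3)) :
    (fun t => coeff (word (i :: u)) t) = D_cn i (fun t => coeff (word u) t) := by
  funext t
  cases t with
  | nil => rw [word_cons, coeff_iota_mul_nil]; rfl
  | cons j t =>
    rw [word_cons, coeff_iota_mul_cons]
    rfl

theorem D_K_zero {α : Type} {g : List α → ℚ} (hg : ∀ s x, g (s ++ [x]) = 0) (v : List α) :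
    D_K g v = 0 := by
  rw [D_K, ← D_sum_zero v]
  refine D_sum_congr v fun A x r _ => ?_
  simp only [hg]
  rw [D_sh_zero, mul_zero]

theorem D_ruleB (hσ : Function.Injective σ) (hp : ∀ i, σ i ≠ p) (hd : ∀ i, IsD p (σ i) (d i))
    (hX : ∀ i, X i = LinearMap.mulLeft ℚ (yl (σ i)) + d i)
    (F : T3) (w : List (Fin 3)) :
    coeff ((FreeAlgebra.lift ℚ X F) 1) (w.map σ ++ [p]) = D_K (coeff F) w := by
  have hstep : ∀ (i : Fin 3) (g : T4) (v : List (Fin 4)), coeff (X i g) v =
      coeff (yl (σ i) * g) v + coeff (d i g) v := by
    intro i g v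
    rw [hX, LinearMap.add_apply, coeff_add, LinearMap.mulLeft_apply]
  have c1 : ∀ (u v : List (Fin 3)),
      coeff ((FreeAlgebra.lift ℚ X (word u)) 1) (v.map σ) = coeff (word u) v := by
    intro u
    induction u with
    | nil =>
      intro v
      rw [D_lift_nil, coc_coeff_one, word_nil, coc_coeff_one]
      simp
    | cons i u ih =>
      intro v
      rw [D_lift_cons, hstep, coc_B (hd i) _ _ (coc_pσ hp), add_zero, word_cons]
      cases v with
      | nil => rw [List.map_nil, yl, coeff_iota_mul_nil, coeff_iota_mul_nil]
      | cons j v =>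
        rw [List.map_cons, yl, coeff_iota_mul_cons, coeff_iota_mul_cons, ih]
        by_cases hj : j = i
        · subst hj; simp
        · rw [if_neg hj, if_neg (fun h => hj (hσ h))]
  have c2 : ∀ (u w : List (Fin 3)), coeff ((FreeAlgebra.lift ℚ X (word u)) 1) (w.map σ ++ [p]) =
      D_K (fun t => coeff (word u) t) w := by
    intro u
    induction u with
    | nil =>
      intro w
      rw [D_lift_nil, coc_coeff_one, D_K_zero]
      · simp
      · intro s x
        rw [word_nil, coc_coeff_one]
        simp
    | cons i u ih =>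
      intro w
      rw [D_lift_cons, hstep, D_word_cn]
      rcases List.eq_nil_or_concat' w with rfl | ⟨v, c, hv⟩
      · rw [D_K_cn_nil, List.map_nil, List.nil_append, coc_A0 (hd i), yl, coeff_iota_mul_cons,
          if_neg (fun h => hp i h.symm), add_zero]
      · obtain ⟨y, v', hv'⟩ : ∃ y v', w = y :: v' := by
          cases w with
          | nil => simp at hv
          | cons y v' => exact ⟨y, v', rfl⟩
        rw [D_K_split]
        have s1 : coeff (yl (σ i) * (FreeAlgebra.lift ℚ X (word u)) 1) (w.map σ ++ [p]) =
            D_sum (D_p1 i fun t => coeff (word u) t) w := by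
          rw [hv', D_K_part1, List.map_cons, List.cons_append, yl, coeff_iota_mul_cons, ih]
          by_cases hj : y = i
          · subst hj; simp
          · rw [if_neg hj, if_neg (fun h => hj (hσ h))]
        have s2 : coeff (d i ((FreeAlgebra.lift ℚ X (word u)) 1)) (w.map σ ++ [p]) =
            D_sum (fun A x r => D_q2 i (fun t => coeff (word u) t) A x r.reverse) w := by
          rw [hv, D_K_part2, List.map_append, List.map_cons, List.map_nil,
            coc_A1 (hd i) _ _ _ (coc_pσ hp) (hp c), ih]
          by_cases hj : c = i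
          · subst hj
            rw [if_pos rfl, if_pos rfl, ← c1 u (v ++ [c]), List.map_append, List.map_cons,
              List.map_nil]
          · rw [if_neg hj, if_neg (fun h => hj (hσ h))]
        rw [s1, s2]
  let ev1 : Module.End ℚ T4 →ₗ[ℚ] T4 := LinearMap.applyₗ (1 : T4)
  -- the right side as a linear map
  have hK : ∀ (u : List (Fin 3)), ∃ G : T3 →ₗ[ℚ] ℚ, ∀ F : T3, G F = D_K (coeff F) u := by
    intro u
    refine ⟨{ toFun := fun F => D_K (coeff F) u, map_add' := ?_, map_smul' := ?_ }, fun F => rfl⟩
    · intro F G
      rw [D_K, D_K, D_K, ← D_sum_add]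
      refine D_sum_congr u fun A x r _ => ?_
      have e : (fun s => coeff (F + G) (s ++ [x])) =
          fun s => coeff F (s ++ [x]) + coeff G (s ++ [x]) := by
        funext s; exact coeff_add _ _ _
      rw [e, Cyc.sh_add _ _ _ rfl]
      ring
    · intro q F
      rw [RingHom.id_apply, smul_eq_mul, D_K, D_K, ← D_sum_mul]
      refine D_sum_congr u fun A x r _ => ?_
      have e : (fun s => coeff (q • F) (s ++ [x])) = fun s => q * coeff F (s ++ [x]) := by
        funext s; exact coeff_smul _ _ _
      rw [e, Cyc.sh_mul]
      ring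
  obtain ⟨G, hG⟩ := hK w
  have key : (coeffL (w.map σ ++ [p])).comp (ev1.comp (FreeAlgebra.lift ℚ X).toLinearMap) = G := by
    apply linear_ext
    intro u
    rw [hG]
    exact c2 u w
  have h3 := LinearMap.congr_fun key F
  rw [hG] at h3
  exact h3

end ruleA

/-! ### Substitutions -/

/-- `ys a` is the sum of the letters `b` with `π b = some a` -/
structure D_H (π : Fin 4 → Option (Fin 3)) (ys : Fin 3 → T4) : Prop where
  nil : ∀ a q, coeff (ys a * q) [] = 0
  cons : ∀ a q b u, coeff (ys a * q) (b :: u) = if π b = some a then coeff q u else 0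

theorem D_H_word {π : Fin 4 → Option (Fin 3)} {ys : Fin 3 → T4} (h : D_H π ys)
    (v : List (Fin 3)) : ∀ u : List (Fin 4),
      coeff (FreeAlgebra.lift ℚ ys (word v)) u = if u.map π = v.map some then 1 else 0 := by
  induction v with
  | nil =>
    intro u
    rw [word_nil, map_one, ← word_nil, coeff_word]
    cases u <;> simp
  | cons a v ih =>
    intro u
    rw [word_cons, map_mul, FreeAlgebra.lift_ι_apply]
    cases u with
    | nil => simp [h.nil]
    | cons b u =>
      rw [h.cons, ih]
      simp only [List.map_cons, List.cons.injEq]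
      by_cases h1 : π b = some a
      · simp [h1]
      · simp [h1]

theorem D_some {π : Fin 4 → Option (Fin 3)} {ys : Fin 3 → T4} (h : D_H π ys)
    (f : T3) {u : List (Fin 4)} {v : List (Fin 3)} (huv : u.map π = v.map some) :
    coeff (FreeAlgebra.lift ℚ ys f) u = coeff f v := by
  have e : (coeffL u).comp (FreeAlgebra.lift ℚ ys).toLinearMap = coeffL v := by
    apply linear_ext
    intro w
    simp only [LinearMap.comp_apply, AlgHom.toLinearMap_apply, coeffL_apply]
    rw [D_H_word h, coeff_word, huv]
    have h1 : (v.map some = w.map some) ↔ w = v :=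
      ⟨fun e => ((Option.some_injective _).list_map e).symm, fun e => by rw [e]⟩
    simp only [h1]
  exact LinearMap.congr_fun e f

theorem D_none {π : Fin 4 → Option (Fin 3)} {ys : Fin 3 → T4} (h : D_H π ys)
    (f : T3) {u : List (Fin 4)} (hu : ∀ v : List (Fin 3), u.map π ≠ v.map some) :
    coeff (FreeAlgebra.lift ℚ ys f) u = 0 := by
  have e : (coeffL u).comp (FreeAlgebra.lift ℚ ys).toLinearMap = 0 := by
    apply linear_ext
    intro w
    simp only [LinearMap.comp_apply, AlgHom.toLinearMap_apply, coeffL_apply,
      LinearMap.zero_apply]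
    rw [D_H_word h, if_neg (hu w)]
  exact LinearMap.congr_fun e f

theorem D_count (v : List (Fin 3)) (x : Fin 3) :
    (v.map some).count (some x) = v.count x :=
  List.count_map_of_injective _ _ (Option.some_injective _) _

/-- vanishing, if `f` vanishes on words `v` with `u.map π = v.map some` -/
theorem D_van {π : Fin 4 → Option (Fin 3)} {ys : Fin 3 → T4} (h : D_H π ys)
    {f : T3} {u : List (Fin 4)}
    (hf : ∀ v : List (Fin 3), u.map π = v.map some → coeff f v = 0) :
    coeff (FreeAlgebra.lift ℚ ys f) u = 0 := by
  by_cases h1 : ∃ v : List (Fin 3), u.map π = v.map some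
  · obtain ⟨v, hv⟩ := h1
    rw [D_some h f hv]
    exact hf v hv
  · exact D_none h f fun v hv => h1 ⟨v, hv⟩

end

end Pent
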