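import Pool.Agent.Lib.MP_a57f33_nt.PN.D.Rule

/-!
# Pentagon project (MP_a57f33_nt), doubling relations: the terms of the cocycle identity in the
fibres of the strands `1`, `2`, `4` (the strands are `0, .., 4` = `some 0, .., some 3, none`)
-/

set_option autoImplicit false

namespace Pent

open Pool.Agent.MP_a57f33_nt
open Pool.Agent.MP_a57f33_nt.Cyc (shuffle)

noncomputable section

/-- the fibre module with permuted strands -/
def D_t (π : Option (Fin 4) → Option (Fin 4)) :
    Option (Fin 4) → Option (Fin 4) → Module.End ℚ T4 := fun p q => tau (π p) (π q)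

theorem D_t_braid (h2 : S_tau) {π : Option (Fin 4) → Option (Fin 4)}
    (hπ : Function.Injective π) : Braid (D_t π) := by
  have ht := h2 (Fin 4)
  refine ⟨fun i j => ht.symm _ _, ?_, ?_⟩
  · intro i j k l h1 h2 h3 h4 h5 h6
    exact ht.four _ _ _ _ (hπ.ne h1) (hπ.ne h2) (hπ.ne h3) (hπ.ne h4) (hπ.ne h5) (hπ.ne h6)
  · intro i j k h1 h2 h3
    exact ht.three _ _ _ (hπ.ne h1) (hπ.ne h2) (hπ.ne h3)

/-- strand `1` is the fibre strand -/
def D_pi1 : Option (Fin 4) → Option (Fin 4)
  | none => some 3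
  | some i => ![some 0, none, some 1, some 2] i

/-- strand `2` is the fibre strand -/
def D_pi2 : Option (Fin 4) → Option (Fin 4)
  | none => some 3
  | some i => ![some 0, some 1, none, some 2] i

theorem D_pi1_inj : Function.Injective D_pi1 := by decide
theorem D_pi2_inj : Function.Injective D_pi2 := by decide

theorem D_univ (h1 : S_univ.{0}) {φ : QX} (hφ : Good φ)
    {w : Fin 4 → Option (Fin 3)} (hw : Function.Injective w)
    {t : Option (Fin 4) → Option (Fin 4) → Module.End ℚ T4} (ht : Braid t)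
    (S : Option (Fin 3) → Finset (Option (Fin 4)))
    (hS : ∀ j k, j ≠ k → Disjoint (S j) (S k)) (S4 : Fin 4 → Finset (Option (Fin 4)))
    (h4 : ∀ i, S (w i) = S4 i) :
    coc_D φ t S4 = FreeAlgebra.lift ℚ (fun i => coc_mg S t (some i) none) (Rw φ w) := by
  rw [← h1 φ hφ w hw (Module.End ℚ T4) (coc_mg S t) (coc_mg_braid ht S hS)]
  have : S4 = fun i => S (w i) := by funext i; exact (h4 i).symm
  rw [this]
  rfl

/-- a term with the fibre strand in a block of its own -/
theorem D_sub (h1 : S_univ.{0}) {φ : QX} (hφ : Good φ)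
    {w : Fin 4 → Option (Fin 3)} (hw : Function.Injective w)
    {t : Option (Fin 4) → Option (Fin 4) → Module.End ℚ T4} (ht : Braid t)
    (S : Option (Fin 3) → Finset (Option (Fin 4)))
    (hS : ∀ j k, j ≠ k → Disjoint (S j) (S k)) (S4 : Fin 4 → Finset (Option (Fin 4)))
    (h4 : ∀ i, S (w i) = S4 i) (y : Fin 3 → T4)
    (hy : ∀ i : Fin 3, coc_mg S t (some i) none = LinearMap.mulLeft ℚ (y i)) :
    coc_D φ t S4 1 = FreeAlgebra.lift ℚ y (Rw φ w) := by
  rw [D_univ h1 hφ hw ht S hS S4 h4]
  have : (fun i => coc_mg S t (some i) none) = fun i => LinearMap.mulLeft ℚ (y i) := funext hy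
  rw [this, coc_lift_L]

/-- a term with the last strand `p`, alone in its block -/
theorem D_A (h1 : S_univ.{0}) {φ : QX} (hφ : Good φ)
    {w : Fin 4 → Option (Fin 3)} (hw : Function.Injective w)
    {t : Option (Fin 4) → Option (Fin 4) → Module.End ℚ T4} (ht : Braid t)
    (S : Option (Fin 3) → Finset (Option (Fin 4)))
    (hS : ∀ j k, j ≠ k → Disjoint (S j) (S k)) (S4 : Fin 4 → Finset (Option (Fin 4)))
    (h4 : ∀ i, S (w i) = S4 i) {p : Fin 4} {σ : Fin 3 → Fin 4}
    (hσ : Function.Injective σ) (hp : ∀ i, σ i ≠ p) (e f : Fin 3 → ℚ)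
    (hy : ∀ i : Fin 3, coc_mg S t (some i) none =
      e i • tau (some (σ i)) (some p) + f i • LinearMap.mulLeft ℚ (yl p)) (v : List (Fin 3)) :
    coeff (coc_D φ t S4 1) (v.map σ ++ [p]) =
      (-1) ^ v.length * (v.map e).prod * ∑ k, f k * coeff (Rw φ w) (v.reverse ++ [k]) := by
  rw [D_univ h1 hφ hw ht S hS S4 h4]
  exact D_ruleA (d := fun i => tau (some (σ i)) (some p)) hσ hp
    (fun i => coc_isD2 (hp i).symm) hy _ _

/-- a term with a last block that consists of the special strand `p` and the fibre strand -/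
theorem D_B (h1 : S_univ.{0}) {φ : QX} (hφ : Good φ)
    {w : Fin 4 → Option (Fin 3)} (hw : Function.Injective w)
    {t : Option (Fin 4) → Option (Fin 4) → Module.End ℚ T4} (ht : Braid t)
    (S : Option (Fin 3) → Finset (Option (Fin 4)))
    (hS : ∀ j k, j ≠ k → Disjoint (S j) (S k)) (S4 : Fin 4 → Finset (Option (Fin 4)))
    (h4 : ∀ i, S (w i) = S4 i) {p : Fin 4} {σ : Fin 3 → Fin 4}
    (hσ : Function.Injective σ) (hp : ∀ i, σ i ≠ p)
    (hy : ∀ i : Fin 3, coc_mg S t (some i) none =
      LinearMap.mulLeft ℚ (yl (σ i)) + tau (some (σ i)) (some p)) (v : List (Fin 3)) :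
    coeff (coc_D φ t S4 1) (v.map σ ++ [p]) = D_K (coeff (Rw φ w)) v := by
  rw [D_univ h1 hφ hw ht S hS S4 h4]
  exact D_ruleB (d := fun i => tau (some (σ i)) (some p)) hσ hp
    (fun i => coc_isD2 (hp i).symm) hy _ _

theorem D_s01 (f : Option (Fin 4) → Module.End ℚ T4) :
    ∑ a ∈ ({some 0, some 1} : Finset (Option (Fin 4))), f a = f (some 0) + f (some 1) :=
  Finset.sum_pair (by decide)
theorem D_s12 (f : Option (Fin 4) → Module.End ℚ T4) :
    ∑ a ∈ ({some 1, some 2} : Finset (Option (Fin 4))), f a = f (some 1) + f (some 2) :=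
  Finset.sum_pair (by decide)
theorem D_s23 (f : Option (Fin 4) → Module.End ℚ T4) :
    ∑ a ∈ ({some 2, some 3} : Finset (Option (Fin 4))), f a = f (some 2) + f (some 3) :=
  Finset.sum_pair (by decide)
theorem D_s3n (f : Option (Fin 4) → Module.End ℚ T4) :
    ∑ a ∈ ({some 3, none} : Finset (Option (Fin 4))), f a = f (some 3) + f none :=
  Finset.sum_pair (by decide)

theorem D_tau_none (i : Fin 4) :
    (tau (some i) none : Module.End ℚ T4) = LinearMap.mulLeft ℚ (yl i) := rfl
theorem D_none_tau (i : Fin 4) :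
    (tau none (some i) : Module.End ℚ T4) = LinearMap.mulLeft ℚ (yl i) := rfl

end

end Pent
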